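import Pool.Agent.Helper903.ES.Main

set_option autoImplicit false

namespace V11174.RES

open Finset ES903

/-- planting with colours as resource -/
def CPlant {V C : Type*} [DecidableEq C] (H : SimpleGraph V) (col : V → V → C)
    (p : V → Finset C → Prop) (u : V) (S : Finset C) : Prop :=
  ∃ v, H.Adj u v ∧ col u v ∈ S ∧ p v (S.erase (col u v))

/-- rainbow homomorphic images of rooted trees with colours from `S` -/
def CEmb {V C W : Type*} [DecidableEq C] (H : SimpleGraph V) (col : V → V → C) :
    RT W → V → Finset C → Prop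
  | .node _, _, _ => True
  | .graft A B, u, S => comp (CPlant H col (CEmb H col A) u) (CEmb H col B u) S

section
variable {V C W : Type*} [DecidableEq C]

theorem cplant [Fintype V] (H : SimpleGraph V) [DecidableRel H.Adj] (col : V → V → C)
    (hsymm : ∀ u v, H.Adj u v → col u v = col v u)
    (hprop : ∀ u v w, H.Adj u v → H.Adj u w → col u v = col u w → v = w)
    (R : Finset C) (hR : ∀ u v, H.Adj u v → col u v ∈ R)
    (p q : V → Finset C → Prop)
    (hp : ∀ v S T, S ⊆ T → p v S → p v T) (hq : ∀ v S T, S ⊆ T → q v S → q v T)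
    (h : ∀ u v S, H.Adj u v → p v (S.erase (col u v)) → q u (insert (col u v) S)) :
    ∑ u, ((H.degree u : ℚ) + 1) * E R (Fail (q u)) ≤
      ∑ v, ((H.degree v : ℚ) + 1) * E R (Fail (p v)) +
        (Fintype.card V : ℚ) * ((R.card : ℚ) + 1) := by
  -- arc inequality
  have harc : ∑ u, ∑ v ∈ H.neighborFinset u, E R (fun S => Fail (q u) (insert (col u v) S)) ≤
      ∑ v, ∑ u ∈ H.neighborFinset v, E R (fun S => Fail (p v) (S.erase (col v u))) := by
    have : ∑ v, ∑ u ∈ H.neighborFinset v, E R (fun S => Fail (p v) (S.erase (col v u))) =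
      ∑ u, ∑ v ∈ H.neighborFinset u, E R (fun S => Fail (p v) (S.erase (col v u))) := by
      apply Finset.sum_comm'
      intro x y
      simp [SimpleGraph.adj_comm]
    rw [this]
    apply Finset.sum_le_sum
    intro u _
    apply Finset.sum_le_sum
    intro v hv
    have huv : H.Adj u v := by simpa using hv
    apply E_mono
    intro S _
    apply Fail_mono
    intro hh
    rw [← hsymm u v huv] at hh
    exact h u v S huv hh
  have hinj : ∀ u, Set.InjOn (fun v => col u v) (H.neighborFinset u : Set V) := by
    intro u v hv w hw hvw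
    exact hprop u v w (by simpa using hv) (by simpa using hw) hvw
  have hsub : ∀ u, (H.neighborFinset u).image (fun v => col u v) ⊆ R := by
    intro u c hc
    obtain ⟨v, hv, rfl⟩ := Finset.mem_image.1 hc
    exact hR u v (by simpa using hv)
  have hL : ∀ u, ((H.degree u : ℚ) + 1) * E R (Fail (q u)) - ((R.card : ℚ) + 1) ≤
      ∑ v ∈ H.neighborFinset u, E R (fun S => Fail (q u) (insert (col u v) S)) := by
    intro u
    have e1 := E_up R (Fail (q u))
    have e2 : ∑ c ∈ (H.neighborFinset u).image (fun v => col u v), (E R (Fail (q u)) -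
        E R (fun S => Fail (q u) (insert c S))) ≤
        ∑ c ∈ R, (E R (Fail (q u)) -
          E R (fun S => Fail (q u) (insert c S))) := by
      apply Finset.sum_le_sum_of_subset_of_nonneg (hsub u)
      intro x _ _
      have : E R (fun S => Fail (q u) (insert x S)) ≤ E R (Fail (q u)) := by
        apply E_mono
        intro S _
        apply Fail_mono
        exact hq u S _ (Finset.subset_insert _ _)
      linarith
    rw [Finset.sum_image (hinj u)] at e2
    rw [e1, Finset.sum_sub_distrib, Finset.sum_const, SimpleGraph.card_neighborFinset_eq_degree,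
      nsmul_eq_mul] at e2
    have e3 := Fail_le_one (q u) ∅
    have e4 : (0:ℚ) ≤ (R.card : ℚ) + 1 := by positivity
    nlinarith
  have hRR : ∀ v, ∑ u ∈ H.neighborFinset v, E R (fun S => Fail (p v) (S.erase (col v u))) ≤
      ((H.degree v : ℚ) + 1) * E R (Fail (p v)) := by
    intro v
    have e1 := E_down R (Fail (p v))
    have e2 : ∑ c ∈ (H.neighborFinset v).image (fun u => col v u),
        (E R (fun S => Fail (p v) (S.erase c)) -
        E R (Fail (p v))) ≤
        ∑ c ∈ R, (E R (fun S => Fail (p v) (S.erase c)) -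
        E R (Fail (p v))) := by
      apply Finset.sum_le_sum_of_subset_of_nonneg (hsub v)
      intro x _ _
      have : E R (Fail (p v)) ≤ E R (fun S => Fail (p v) (S.erase x)) := by
        apply E_mono
        intro S _
        apply Fail_mono
        exact hp v _ _ (Finset.erase_subset _ _)
      linarith
    rw [Finset.sum_image (hinj v)] at e2
    rw [e1, Finset.sum_sub_distrib, Finset.sum_const, SimpleGraph.card_neighborFinset_eq_degree,
      nsmul_eq_mul] at e2
    have e3 := Fail_nonneg (p v) R
    have e4 : (0:ℚ) ≤ (R.card : ℚ) + 1 := by positivity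
    nlinarith [mul_nonneg e4 e3]
  have s1 := Finset.sum_le_sum (s := (univ : Finset V)) (fun u _ => hL u)
  have s2 := Finset.sum_le_sum (s := (univ : Finset V)) (fun v _ => hRR v)
  rw [Finset.sum_sub_distrib, Finset.sum_const, nsmul_eq_mul, Finset.card_univ] at s1
  linarith

theorem CPlant_mono {H : SimpleGraph V} {col : V → V → C} {p : V → Finset C → Prop}
    (hp : ∀ v S T, S ⊆ T → p v S → p v T) (u : V) (S T : Finset C) (h : S ⊆ T)
    (hc : CPlant H col p u S) : CPlant H col p u T := by
  obtain ⟨v, h1, h2, h3⟩ := hc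
  exact ⟨v, h1, h h2, hp _ _ _ (Finset.erase_subset_erase _ h) h3⟩

theorem CEmb_mono (H : SimpleGraph V) (col : V → V → C) (t : RT W) :
    ∀ (u : V) (S T : Finset C), S ⊆ T → CEmb H col t u S → CEmb H col t u T := by
  induction t with
  | node w => intro u S T _ _; trivial
  | graft A B _ ihB =>
    intro u S T h hS
    exact RT.comp_mono (ihB u) S T h hS

theorem ccost [Fintype V] (H : SimpleGraph V) [DecidableRel H.Adj] (col : V → V → C)
    (hsymm : ∀ u v, H.Adj u v → col u v = col v u)
    (hprop : ∀ u v w, H.Adj u v → H.Adj u w → col u v = col u w → v = w)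
    (R : Finset C) (hR : ∀ u v, H.Adj u v → col u v ∈ R) (t : RT W) :
    ∑ u, ((H.degree u : ℚ) + 1) * E R (Fail (CEmb H col t u)) ≤
      (t.size : ℚ) * ((Fintype.card V : ℚ) * ((R.card : ℚ) + 1)) := by
  induction t with
  | node w =>
    have : ∀ u, E R (Fail (CEmb H col (.node w : RT W) u)) = 0 := by
      intro u
      simp [E, Fail, CEmb]
    simp [this, RT.size]
  | graft A B ihA ihB =>
    have h1 := cplant H col hsymm hprop R hR (CEmb H col A) (CPlant H col (CEmb H col A))
      (CEmb_mono H col A)
      (CPlant_mono (CEmb_mono H col A)) (by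
        intro u v S huv hE
        refine ⟨v, huv, Finset.mem_insert_self _ _, CEmb_mono H col A v _ _ ?_ hE⟩
        exact Finset.erase_subset_erase _ (Finset.subset_insert _ _))
    have h2 : ∑ u, ((H.degree u : ℚ) + 1) * E R (Fail (CEmb H col (.graft A B) u)) ≤
        ∑ u, ((H.degree u : ℚ) + 1) * E R (Fail (CPlant H col (CEmb H col A) u)) +
        ∑ u, ((H.degree u : ℚ) + 1) * E R (Fail (CEmb H col B u)) := by
      rw [← Finset.sum_add_distrib]
      apply Finset.sum_le_sum
      intro u _
      rw [← mul_add]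
      apply mul_le_mul_of_nonneg_left _ (by positivity)
      exact glue R _ _
    have h3 : ((RT.graft A B).size : ℚ) = A.size + B.size + 1 := by simp [RT.size]
    rw [h3]
    linarith

/-- average degree larger than `size - 1` gives a rainbow homomorphic image -/
theorem cmain [Fintype V] (H : SimpleGraph V) [DecidableRel H.Adj] (col : V → V → C)
    (hsymm : ∀ u v, H.Adj u v → col u v = col v u)
    (hprop : ∀ u v w, H.Adj u v → H.Adj u w → col u v = col u w → v = w)
    (R : Finset C) (hR : ∀ u v, H.Adj u v → col u v ∈ R) (t : RT W)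
    (h : (t.size - 1) * Fintype.card V < 2 * H.edgeFinset.card) :
    ∃ u, CEmb H col t u R := by
  by_contra hcon
  push Not at hcon
  have hall : ∀ u, E R (Fail (CEmb H col t u)) = (R.card : ℚ) + 1 := by
    intro u
    have : E R (Fail (CEmb H col t u)) = E R (fun _ => 1) := by
      apply le_antisymm
      · apply E_mono
        intro S _
        exact Fail_le_one _ _
      · apply E_mono
        intro S hS
        have : ¬ CEmb H col t u S := fun hh => hcon u (CEmb_mono H col t u S R hS hh)
        simp [Fail, this]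
    rw [this, E_one]
  have hc := ccost H col hsymm hprop R hR t
  simp only [hall] at hc
  rw [← Finset.sum_mul, Finset.sum_add_distrib] at hc
  have hdeg : ∑ u, (H.degree u : ℚ) = 2 * H.edgeFinset.card := by
    exact_mod_cast H.sum_degrees_eq_twice_card_edges
  rw [hdeg] at hc
  simp only [Finset.sum_const, nsmul_eq_mul, Finset.card_univ, mul_one] at hc
  have hn : (0:ℚ) < (R.card : ℚ) + 1 := by positivity
  rw [← mul_assoc] at hc
  have hc2 := le_of_mul_le_mul_right hc hn
  have hc3 : 2 * H.edgeFinset.card + Fintype.card V ≤ t.size * Fintype.card V := by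
    exact_mod_cast hc2
  rcases Nat.eq_zero_or_pos t.size with h0 | h0
  · rw [h0] at hc3
    omega
  · obtain ⟨s, hs⟩ : ∃ s, t.size = s + 1 := ⟨t.size - 1, by omega⟩
    rw [hs] at h hc3
    simp only [Nat.add_sub_cancel] at h
    rw [add_mul] at hc3
    omega

theorem cextract [DecidableEq W] (H : SimpleGraph V) (col : V → V → C) (t : RT W)
    (ht : t.Good) (u : V) (S : Finset C) (h : CEmb H col t u S) :
    ∃ f : W → V, f t.root = u ∧
      (∀ a b, t.Edge a b → H.Adj (f a) (f b) ∧ col (f a) (f b) ∈ S) ∧
      (∀ a b c d, t.Edge a b → t.Edge c d → col (f a) (f b) = col (f c) (f d) →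
        a = c ∧ b = d) := by
  induction t generalizing u S with
  | node w =>
    exact ⟨fun _ => u, rfl, fun a b hab => hab.elim, fun a b c d hab => hab.elim⟩
  | graft A B ihA ihB =>
    obtain ⟨hgA, hgB, hdis⟩ := ht
    obtain ⟨S1, hS1, ⟨v, hadj, hv, hA⟩, hB⟩ := h
    obtain ⟨fA, hA1, hA2, hA3⟩ := ihA hgA v (S1.erase (col u v)) hA
    obtain ⟨fB, hB1, hB2, hB3⟩ := ihB hgB u (S \ S1) hB
    have hBA : ∀ w ∈ B.verts, w ∉ A.verts := fun w hw hwA =>
      (Finset.disjoint_left.mp hdis) hwA hw
    have hrA := RT.extract_root_mem A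
    have hrB := RT.extract_root_mem B
    have eA : ∀ w ∈ A.verts, (if w ∈ A.verts then fA w else fB w) = fA w := fun w hw => if_pos hw
    have eB : ∀ w ∈ B.verts, (if w ∈ A.verts then fA w else fB w) = fB w :=
      fun w hw => if_neg (hBA w hw)
    refine ⟨fun w => if w ∈ A.verts then fA w else fB w, ?_, ?_, ?_⟩
    · show (if B.root ∈ A.verts then fA B.root else fB B.root) = u
      rw [eB _ hrB, hB1]
    · intro a b hab
      show H.Adj (if a ∈ A.verts then fA a else fB a) (if b ∈ A.verts then fA b else fB b) ∧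
        col (if a ∈ A.verts then fA a else fB a) (if b ∈ A.verts then fA b else fB b) ∈ S
      rcases hab with h1 | h1 | ⟨h1, h2⟩
      · have h3 := RT.extract_edge_mem A a b h1
        rw [eA _ h3.1, eA _ h3.2]
        exact ⟨(hA2 a b h1).1, hS1 (Finset.mem_of_mem_erase (hA2 a b h1).2)⟩
      · have h3 := RT.extract_edge_mem B a b h1
        rw [eB _ h3.1, eB _ h3.2]
        exact ⟨(hB2 a b h1).1, (Finset.mem_sdiff.1 (hB2 a b h1).2).1⟩
      · rw [h1, h2, eB _ hrB, eA _ hrA, hA1, hB1]
        exact ⟨hadj, hS1 hv⟩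
    · intro a b c d hab hcd hcol
      have hcol' : col (if a ∈ A.verts then fA a else fB a) (if b ∈ A.verts then fA b else fB b) =
        col (if c ∈ A.verts then fA c else fB c) (if d ∈ A.verts then fA d else fB d) := hcol
      rcases hab with h1 | h1 | ⟨h1, h1'⟩
      · have m1 := RT.extract_edge_mem A a b h1
        rw [eA _ m1.1, eA _ m1.2] at hcol'
        have k1 := (hA2 a b h1).2
        rcases hcd with h2 | h2 | ⟨h2, h2'⟩
        · have m2 := RT.extract_edge_mem A c d h2
          rw [eA _ m2.1, eA _ m2.2] at hcol'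
          exact hA3 a b c d h1 h2 hcol'
        · have m2 := RT.extract_edge_mem B c d h2
          rw [eB _ m2.1, eB _ m2.2] at hcol'
          have k2 := (hB2 c d h2).2
          rw [← hcol'] at k2
          exact absurd (Finset.mem_of_mem_erase k1) (Finset.mem_sdiff.1 k2).2
        · rw [h2, h2', eB _ hrB, eA _ hrA, hA1, hB1] at hcol'
          exact absurd hcol' (Finset.ne_of_mem_erase k1)
      · have m1 := RT.extract_edge_mem B a b h1
        rw [eB _ m1.1, eB _ m1.2] at hcol'
        have k1 := (hB2 a b h1).2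
        rcases hcd with h2 | h2 | ⟨h2, h2'⟩
        · have m2 := RT.extract_edge_mem A c d h2
          rw [eA _ m2.1, eA _ m2.2] at hcol'
          have k2 := (hA2 c d h2).2
          rw [← hcol'] at k2
          exact absurd (Finset.mem_of_mem_erase k2) (Finset.mem_sdiff.1 k1).2
        · have m2 := RT.extract_edge_mem B c d h2
          rw [eB _ m2.1, eB _ m2.2] at hcol'
          exact hB3 a b c d h1 h2 hcol'
        · rw [h2, h2', eB _ hrB, eA _ hrA, hA1, hB1] at hcol'
          rw [hcol'] at k1
          exact absurd hv (Finset.mem_sdiff.1 k1).2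
      · rw [h1, h1', eB _ hrB, eA _ hrA, hA1, hB1] at hcol'
        rcases hcd with h2 | h2 | ⟨h2, h2'⟩
        · have m2 := RT.extract_edge_mem A c d h2
          rw [eA _ m2.1, eA _ m2.2] at hcol'
          have k2 := (hA2 c d h2).2
          exact absurd hcol'.symm (Finset.ne_of_mem_erase k2)
        · have m2 := RT.extract_edge_mem B c d h2
          rw [eB _ m2.1, eB _ m2.2] at hcol'
          have k2 := (hB2 c d h2).2
          rw [← hcol'] at k2
          exact absurd hv (Finset.mem_sdiff.1 k2).2
        · exact ⟨h1.trans h2.symm, h1'.trans h2'.symm⟩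

/-- rainbow homomorphism from an abstract rooted tree -/
theorem rainbow_hom_RT [Fintype V] [DecidableEq W] (H : SimpleGraph V) [DecidableRel H.Adj]
    (φ : Sym2 V → C)
    (hprop : ∀ u v w, H.Adj u v → H.Adj u w → φ s(u, v) = φ s(u, w) → v = w)
    (t : RT W) (ht : t.Good)
    (h : (t.size - 1) * Fintype.card V < 2 * H.edgeFinset.card) :
    ∃ f : W → V, (∀ a b, t.Edge a b → H.Adj (f a) (f b)) ∧
      (∀ a b c d, t.Edge a b → t.Edge c d → φ s(f a, f b) = φ s(f c, f d) →
        a = c ∧ b = d) := by
  classical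
  obtain ⟨u, hu⟩ := cmain H (fun u v => φ s(u, v)) (fun u v _ => by rw [Sym2.eq_swap])
    hprop ((univ : Finset (V × V)).image (fun p => φ s(p.1, p.2)))
    (fun u v _ => Finset.mem_image.2 ⟨(u, v), Finset.mem_univ _, rfl⟩) t h
  obtain ⟨f, -, h2, h3⟩ := cextract H (fun u v => φ s(u, v)) t ht u _ hu
  exact ⟨f, fun a b hab => (h2 a b hab).1, h3⟩

/-- rainbow homomorphism of a tree -/
theorem rainbow_hom [Fintype V] [Fintype W] (H : SimpleGraph V) [DecidableRel H.Adj]
    (φ : Sym2 V → C)
    (hprop : ∀ u v w, H.Adj u v → H.Adj u w → φ s(u, v) = φ s(u, w) → v = w)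
    (T : SimpleGraph W) (hT : T.IsTree) (k : ℕ) (hW : Fintype.card W = k + 1)
    (h : (k - 1) * Fintype.card V < 2 * H.edgeFinset.card) :
    ∃ f : W → V, (∀ a b, T.Adj a b → H.Adj (f a) (f b)) ∧
      (∀ a b c d, T.Adj a b → T.Adj c d → φ s(f a, f b) = φ s(f c, f d) →
        s(a, b) = s(c, d)) := by
  classical
  obtain ⟨t, h1, h2, h3, h4⟩ := exists_RT T hT
  have hk : t.size = k := by omega
  obtain ⟨f, hf1, hf2⟩ := rainbow_hom_RT H φ hprop t h1 (by rw [hk]; exact h)
  refine ⟨f, ?_, ?_⟩
  · intro a b hab
    rcases h3 a b hab with hh | hh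
    · exact hf1 a b hh
    · exact (hf1 b a hh).symm
  · intro a b c d hab hcd hcol
    rcases h3 a b hab with hh | hh
    · rcases h3 c d hcd with gg | gg
      · obtain ⟨e1, e2⟩ := hf2 a b c d hh gg hcol
        rw [e1, e2]
      · rw [Sym2.eq_swap (a := f c)] at hcol
        obtain ⟨e1, e2⟩ := hf2 a b d c hh gg hcol
        rw [e1, e2, Sym2.eq_swap]
    · rw [Sym2.eq_swap (a := f a)] at hcol
      rcases h3 c d hcd with gg | gg
      · obtain ⟨e1, e2⟩ := hf2 b a c d hh gg hcol
        rw [e1, e2, Sym2.eq_swap]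
      · rw [Sym2.eq_swap (a := f c)] at hcol
        obtain ⟨e1, e2⟩ := hf2 b a d c hh gg hcol
        rw [e1, e2]

end

end V11174.RES
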