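import Pool.Agent.V11174.RES.Core

set_option autoImplicit false

namespace V11174.RES

open Finset

/-- the hypercube `Q_n`: adjacent when differing in exactly one coordinate -/
def cube (n : ℕ) : SimpleGraph (Fin n → Bool) where
  Adj x y := ∃ i, x i ≠ y i ∧ ∀ j, j ≠ i → x j = y j
  symm := ⟨fun x y ⟨i, h1, h2⟩ => ⟨i, fun h => h1 h.symm, fun j hj => (h2 j hj).symm⟩⟩
  loopless := ⟨fun x ⟨i, h1, _⟩ => h1 rfl⟩

/-- `φ` is a proper edge colouring of `H` -/
def IsProper {V : Type*} (H : SimpleGraph V) (φ : Sym2 V → ℕ) : Prop :=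
  ∀ u v w, H.Adj u v → H.Adj u w → v ≠ w → φ s(u, v) ≠ φ s(u, w)

/-- `f` is a rainbow copy of `F` in the coloured graph `(H, φ)` -/
def IsRainbowCopy {V W : Type*} (H : SimpleGraph V) (φ : Sym2 V → ℕ) (F : SimpleGraph W)
    (f : W → V) : Prop :=
  Function.Injective f ∧ (∀ a b, F.Adj a b → H.Adj (f a) (f b)) ∧
    ∀ a b c d, F.Adj a b → F.Adj c d → φ s(f a, f b) = φ s(f c, f d) → s(a, b) = s(c, d)

/-- the numbers of edges of subgraphs of `G` with a proper colouring without rainbow `F` -/
def sizes {V W : Type*} (G : SimpleGraph V) (F : SimpleGraph W) : Set ℕ :=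
  {m | ∃ H : SimpleGraph V, H ≤ G ∧
    (∃ φ : Sym2 V → ℕ, IsProper H φ ∧ ¬ ∃ f : W → V, IsRainbowCopy H φ F f) ∧
    H.edgeSet.ncard = m}

/-- the relative rainbow extremal number -/
noncomputable def exStar {V W : Type*} (G : SimpleGraph V) (F : SimpleGraph W) : ℕ :=
  sSup (sizes G F)

/-- a rainbow cycle of length at most `D` in `(H, φ)` -/
def HasRainbowCycle {V : Type*} (H : SimpleGraph V) (φ : Sym2 V → ℕ) (D : ℕ) : Prop :=
  ∃ (v : V) (c : H.Walk v v), c.IsCycle ∧ c.length ≤ D ∧ (c.edges.map φ).Nodup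

/-- a rainbow homomorphism of a tree is injective if there are no short rainbow cycles -/
theorem inj_of_no_cycle {V W : Type*} (H : SimpleGraph V) (φ : Sym2 V → ℕ)
    (T : SimpleGraph W) (hT : T.IsTree) (D : ℕ) (hD : ∀ x y, T.dist x y ≤ D)
    (hc : ¬ HasRainbowCycle H φ D) (f : W → V)
    (hf : ∀ a b, T.Adj a b → H.Adj (f a) (f b))
    (hr : ∀ a b c d, T.Adj a b → T.Adj c d → φ s(f a, f b) = φ s(f c, f d) →
      s(a, b) = s(c, d)) : Function.Injective f := by
  classical
  intro x y hxy
  by_contra hne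
  apply hc
  obtain ⟨p, hp⟩ := hT.connected.exists_walk_length_eq_dist x y
  have hpath := p.isPath_of_length_eq_dist hp
  let F : T →g H := ⟨f, fun {a b} h => hf a b h⟩
  let w : H.Walk (f x) (f x) := (p.map F).copy rfl hxy.symm
  have hedges : w.edges = p.edges.map (Sym2.map f) := by
    simp only [w, SimpleGraph.Walk.edges_copy, SimpleGraph.Walk.edges_map]
    rfl
  have hinj : ∀ e ∈ p.edges, ∀ e' ∈ p.edges,
      φ (Sym2.map f e) = φ (Sym2.map f e') → e = e' := by
    intro e he e' he' h
    have h1 := p.edges_subset_edgeSet he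
    have h2 := p.edges_subset_edgeSet he'
    induction e using Sym2.ind with
    | _ a b =>
      induction e' using Sym2.ind with
      | _ c d =>
        exact hr a b c d h1 h2 h
  have hnodup : (w.edges.map φ).Nodup := by
    rw [hedges, List.map_map]
    exact List.Nodup.map_on (fun e he e' he' h => hinj e he e' he' h) hpath.isTrail.edges_nodup
  have htrail : w.IsTrail := ⟨List.Nodup.of_map φ hnodup⟩
  have hlen : w.length = p.length := by
    simp [w]
  have hnil : w ≠ .nil := by
    intro h
    have h0 : w.length = 0 := by rw [h]; rfl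
    rw [hlen] at h0
    exact hne (SimpleGraph.Walk.eq_of_length_eq_zero h0)
  have hcyc := SimpleGraph.Walk.IsTrail.isCycle_cycleBypass hnil htrail
  refine ⟨f x, w.cycleBypass, hcyc, ?_, ?_⟩
  · have h1 := w.length_cycleBypass_le_length
    have h2 := hD x y
    omega
  · exact List.Nodup.sublist
      (List.Sublist.map φ w.edges_cycleBypass_sublist_edges) hnodup

/-- rainbow Erdős–Sós when there are no short rainbow cycles -/
theorem rainbow_copy {V W : Type*} [Finite V] [Finite W] (H : SimpleGraph V)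
    (φ : Sym2 V → ℕ) (hφ : IsProper H φ) (T : SimpleGraph W) (hT : T.IsTree) (k D : ℕ)
    (hW : Nat.card W = k + 1) (hD : ∀ x y, T.dist x y ≤ D)
    (hc : ¬ HasRainbowCycle H φ D)
    (h : (k - 1) * Nat.card V < 2 * H.edgeSet.ncard) :
    ∃ f : W → V, IsRainbowCopy H φ T f := by
  classical
  have := Fintype.ofFinite V
  have := Fintype.ofFinite W
  have hedge : H.edgeSet.ncard = H.edgeFinset.card := by
    rw [← SimpleGraph.coe_edgeFinset, Set.ncard_coe_finset]
  rw [hedge, Nat.card_eq_fintype_card] at h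
  rw [Nat.card_eq_fintype_card] at hW
  obtain ⟨f, hf1, hf2⟩ := rainbow_hom H φ
    (fun u v w h1 h2 h3 => by
      by_contra hne
      exact hφ u v w h1 h2 hne h3) T hT k hW h
  exact ⟨f, inj_of_no_cycle H φ T hT D hD hc f hf1 hf2, hf1, hf2⟩

/-! ### parity in the cube -/

/-- parity of a vertex -/
def par {n : ℕ} (x : Fin n → Bool) : ZMod 2 := ∑ i, if x i then 1 else 0

theorem par_adj {n : ℕ} {x y : Fin n → Bool} (h : (cube n).Adj x y) : par x ≠ par y := by
  obtain ⟨i, h1, h2⟩ := h
  have hx : par x = (if x i then 1 else 0) + ∑ j ∈ univ.erase i, if x j then (1 : ZMod 2) else 0 :=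
    (Finset.add_sum_erase univ (fun j => if x j then (1 : ZMod 2) else 0) (Finset.mem_univ i)).symm
  have hy : par y = (if y i then 1 else 0) + ∑ j ∈ univ.erase i, if y j then (1 : ZMod 2) else 0 :=
    (Finset.add_sum_erase univ (fun j => if y j then (1 : ZMod 2) else 0) (Finset.mem_univ i)).symm
  have hs : ∑ j ∈ univ.erase i, (if x j then (1 : ZMod 2) else 0) =
      ∑ j ∈ univ.erase i, if y j then (1 : ZMod 2) else 0 := by
    apply Finset.sum_congr rfl
    intro j hj
    rw [h2 j (Finset.ne_of_mem_erase hj)]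
  rw [hx, hy, hs]
  intro h3
  have h4 := add_right_cancel h3
  cases hxi : x i <;> cases hyi : y i <;> simp_all

/-- the parity colouring of a subgraph of the cube -/
def parCol {n : ℕ} {H : SimpleGraph (Fin n → Bool)} (hH : H ≤ cube n) : H.Coloring Bool :=
  SimpleGraph.Coloring.mk (fun x => decide (par x = 0)) (by
    intro x y hxy h
    have h1 := par_adj (hH hxy)
    have h2 : ∀ a b : ZMod 2, a ≠ b → decide (a = 0) ≠ decide (b = 0) := by decide
    exact h2 _ _ h1 h)

theorem even_closed {n : ℕ} {H : SimpleGraph (Fin n → Bool)} (hH : H ≤ cube n)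
    (v : Fin n → Bool) (c : H.Walk v v) : Even c.length :=
  ((parCol hH).even_length_iff_congr c).2 Iff.rfl

theorem no_cycle_three {n : ℕ} {H : SimpleGraph (Fin n → Bool)} (hH : H ≤ cube n)
    (φ : Sym2 (Fin n → Bool) → ℕ) : ¬ HasRainbowCycle H φ 3 := by
  rintro ⟨v, c, h1, h2, -⟩
  have h3 := even_closed hH v c
  have h4 := h1.three_le_length
  have : c.length = 3 := by omega
  rw [this] at h3
  exact absurd h3 (by decide)

/-! ### unions of directions -/

/-- the union of the first `m` direction classes of `Q_n` -/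
def dirs (n m : ℕ) : SimpleGraph (Fin n → Bool) where
  Adj x y := ∃ i : Fin n, i.val < m ∧ x i ≠ y i ∧ ∀ j, j ≠ i → x j = y j
  symm := ⟨fun x y ⟨i, h0, h1, h2⟩ => ⟨i, h0, fun h => h1 h.symm, fun j hj => (h2 j hj).symm⟩⟩
  loopless := ⟨fun x ⟨i, _, h1, _⟩ => h1 rfl⟩

theorem dirs_le (n m : ℕ) : dirs n m ≤ cube n := fun _ _ ⟨i, _, h1, h2⟩ => ⟨i, h1, h2⟩

theorem dirs_self (n : ℕ) : dirs n n = cube n := by
  apply le_antisymm (dirs_le n n)
  rintro x y ⟨i, h1, h2⟩
  exact ⟨i, i.isLt, h1, h2⟩

theorem update_not_ne {n : ℕ} (x : Fin n → Bool) (i : Fin n) :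
    x i ≠ Function.update x i (!x i) i := by simp

theorem eq_update {n : ℕ} {x y : Fin n → Bool} {i : Fin n} (h1 : x i ≠ y i)
    (h2 : ∀ j, j ≠ i → x j = y j) : y = Function.update x i (!x i) := by
  funext j
  by_cases hj : j = i
  · subst hj
    simp only [Function.update_self]
    cases hx : x j <;> cases hy : y j <;> simp_all
  · rw [Function.update_of_ne hj, h2 j hj]

theorem dirs_card (n m : ℕ) (hm : m ≤ n) : 2 * (dirs n m).edgeSet.ncard = m * 2 ^ n := by
  classical
  have hdeg : ∀ x, (dirs n m).degree x = m := by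
    intro x
    have h1 : (dirs n m).neighborFinset x =
        (univ.filter (fun i : Fin n => i.val < m)).image
          (fun i => Function.update x i (!x i)) := by
      ext y
      rw [SimpleGraph.mem_neighborFinset, Finset.mem_image]
      constructor
      · rintro ⟨i, h0, h1, h2⟩
        exact ⟨i, by simp [h0], (eq_update h1 h2).symm⟩
      · rintro ⟨i, h0, rfl⟩
        refine ⟨i, by simpa using h0, update_not_ne x i, fun j hj => ?_⟩
        rw [Function.update_of_ne hj]
    rw [← SimpleGraph.card_neighborFinset_eq_degree, h1, Finset.card_image_of_injective]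
    · rw [Fin.card_filter_val_lt, min_eq_right hm]
    · intro i j hij
      by_contra hne
      have h2 : Function.update x i (!x i) i = Function.update x j (!x j) i := congrFun hij i
      rw [Function.update_of_ne hne] at h2
      exact update_not_ne x i h2.symm
  have hsum := (dirs n m).sum_degrees_eq_twice_card_edges
  simp only [hdeg, Finset.sum_const, Finset.card_univ, Fintype.card_fun, Fintype.card_bool,
    Fintype.card_fin, smul_eq_mul] at hsum
  have hedge : (dirs n m).edgeSet.ncard = (dirs n m).edgeFinset.card := by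
    rw [← SimpleGraph.coe_edgeFinset, Set.ncard_coe_finset]
  rw [hedge, ← hsum, mul_comm]

/-- the direction colouring -/
def dirCol (n : ℕ) : Sym2 (Fin n → Bool) → ℕ :=
  Sym2.lift ⟨fun x y => ∑ i, if x i ≠ y i then i.val else 0, by
    intro x y
    apply Finset.sum_congr rfl
    intro i _
    by_cases h : x i = y i
    · rw [h]
    · rw [if_pos h, if_pos (fun h' => h h'.symm)]⟩

theorem dirCol_eq {n : ℕ} {x y : Fin n → Bool} {i : Fin n} (h1 : x i ≠ y i)
    (h2 : ∀ j, j ≠ i → x j = y j) : dirCol n s(x, y) = i.val := by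
  show (∑ j, if x j ≠ y j then j.val else 0) = i.val
  rw [Finset.sum_eq_single i]
  · rw [if_pos h1]
  · intro j _ hj
    rw [if_neg]
    intro h
    exact h (h2 j hj)
  · intro h
    exact absurd (Finset.mem_univ i) h

theorem dirs_proper (n m : ℕ) : IsProper (dirs n m) (dirCol n) := by
  rintro u v w ⟨i, _, h1, h2⟩ ⟨j, _, h3, h4⟩ hvw h
  rw [dirCol_eq h1 h2, dirCol_eq h3 h4] at h
  have hij : i = j := Fin.ext h
  subst hij
  apply hvw
  rw [eq_update h1 h2, eq_update h3 h4]

/-- lower bound -/
theorem lower {W : Type*} [Finite W] (T : SimpleGraph W) (hT : T.IsTree) (n k m : ℕ)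
    (hW : Nat.card W = k + 1) (hm : m < k) :
    (dirs n m).edgeSet.ncard ∈ sizes (cube n) T := by
  classical
  refine ⟨dirs n m, dirs_le n m, ⟨dirCol n, dirs_proper n m, ?_⟩, rfl⟩
  rintro ⟨f, -, h2, h3⟩
  have := Fintype.ofFinite W
  have hc := hT.card_edgeFinset
  rw [Nat.card_eq_fintype_card] at hW
  have hk : T.edgeFinset.card = k := by omega
  have hle : T.edgeFinset.card ≤ (Finset.range m).card := by
    apply Finset.card_le_card_of_injOn (fun e => dirCol n (Sym2.map f e))
    · intro e he
      have he' : e ∈ T.edgeFinset := he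
      induction e using Sym2.ind with
      | _ a b =>
        rw [SimpleGraph.mem_edgeFinset, SimpleGraph.mem_edgeSet] at he'
        obtain ⟨i, h0, h1, h4⟩ := h2 a b he'
        show dirCol n s(f a, f b) ∈ (Finset.range m : Set ℕ)
        rw [dirCol_eq h1 h4]
        simpa using h0
    · intro e he e' he' h
      have g1 : e ∈ T.edgeFinset := he
      have g2 : e' ∈ T.edgeFinset := he'
      induction e using Sym2.ind with
      | _ a b =>
        induction e' using Sym2.ind with
        | _ c d =>
          rw [SimpleGraph.mem_edgeFinset, SimpleGraph.mem_edgeSet] at g1 g2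
          exact h3 a b c d g1 g2 h
  rw [hk, Finset.card_range] at hle
  omega

theorem card_cube_vertices (n : ℕ) : Nat.card (Fin n → Bool) = 2 ^ n := by
  rw [Nat.card_eq_fintype_card]
  simp

theorem cube_bound {n : ℕ} {H : SimpleGraph (Fin n → Bool)} (hH : H ≤ cube n) :
    2 * H.edgeSet.ncard ≤ n * 2 ^ n := by
  rw [← dirs_card n n le_rfl, dirs_self]
  apply Nat.mul_le_mul_left
  exact Set.ncard_le_ncard (SimpleGraph.edgeSet_mono hH) (Set.toFinite _)

/-- exact value for trees all of whose dense enough hosts contain a rainbow copy -/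
theorem greatest_of {W : Type*} [Finite W] (T : SimpleGraph W) (hT : T.IsTree) (n k : ℕ)
    (hk : 1 ≤ k) (hW : Nat.card W = k + 1)
    (hcopy : ∀ H : SimpleGraph (Fin n → Bool), H ≤ cube n → ∀ φ, IsProper H φ →
      (k - 1) * 2 ^ n < 2 * H.edgeSet.ncard → ∃ f : W → (Fin n → Bool), IsRainbowCopy H φ T f) :
    IsGreatest (sizes (cube n) T) (min (k - 1) n * 2 ^ (n - 1)) := by
  constructor
  · have h1 := lower T hT n k (min (k - 1) n) hW (by omega)
    have h2 := dirs_card n (min (k - 1) n) (min_le_right _ _)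
    have h3 : (dirs n (min (k - 1) n)).edgeSet.ncard = min (k - 1) n * 2 ^ (n - 1) := by
      rcases Nat.eq_zero_or_pos n with h0 | h0
      · subst h0
        simp at h2 ⊢
        omega
      · obtain ⟨m, rfl⟩ : ∃ m, n = m + 1 := ⟨n - 1, by omega⟩
        rw [pow_succ, ← mul_assoc] at h2
        rw [Nat.add_sub_cancel]
        omega
    rwa [h3] at h1
  · rintro m ⟨H, hH, ⟨φ, hφ, hno⟩, rfl⟩
    have h1 : ¬ (k - 1) * 2 ^ n < 2 * H.edgeSet.ncard := fun h => hno (hcopy H hH φ hφ h)
    have h2 := cube_bound hH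
    rcases Nat.eq_zero_or_pos n with h0 | h0
    · subst h0
      simp at h2 ⊢
      exact h2
    · obtain ⟨m, rfl⟩ : ∃ m, n = m + 1 := ⟨n - 1, by omega⟩
      rw [Nat.add_sub_cancel]
      rw [pow_succ, ← mul_assoc] at h1 h2
      rcases le_total (k - 1) (m + 1) with h3 | h3
      · rw [min_eq_left h3]; omega
      · rw [min_eq_right h3]; omega

end V11174.RES
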