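import Pool.Agent.V11174.RES.Cube

set_option autoImplicit false

namespace V11174.RES

open Finset

/-- two vertices of the cube have at most two common neighbours -/
theorem common_two {n : ℕ} {p q r1 r2 r3 : Fin n → Bool} (hpq : p ≠ q)
    (h1 : (cube n).Adj p r1) (h1' : (cube n).Adj q r1)
    (h2 : (cube n).Adj p r2) (h2' : (cube n).Adj q r2)
    (h3 : (cube n).Adj p r3) (h3' : (cube n).Adj q r3) : r1 = r2 ∨ r1 = r3 ∨ r2 = r3 := by
  have key : ∀ r, (cube n).Adj p r → (cube n).Adj q r →
      ∃ i j, i ≠ j ∧ p i ≠ q i ∧ p j ≠ q j ∧ (∀ t, t ≠ i → t ≠ j → p t = q t) ∧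
        r = Function.update p i (!p i) := by
    rintro r ⟨i, a1, a2⟩ ⟨j, b1, b2⟩
    have hij : i ≠ j := by
      intro hij
      subst hij
      apply hpq
      funext t
      by_cases ht : t = i
      · subst ht
        cases hp : p t <;> cases hq : q t <;> cases hr : r t <;> simp_all
      · rw [a2 t ht, b2 t ht]
    refine ⟨i, j, hij, ?_, ?_, ?_, eq_update a1 a2⟩
    · rw [b2 i hij]; exact a1
    · rw [a2 j hij.symm]; exact fun h => b1 h.symm
    · intro t h3 h4
      rw [a2 t h3, b2 t h4]
  obtain ⟨i1, j1, n1, e1, f1, g1, u1⟩ := key r1 h1 h1'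
  obtain ⟨i2, j2, n2, e2, f2, g2, u2⟩ := key r2 h2 h2'
  obtain ⟨i3, j3, n3, e3, f3, g3, u3⟩ := key r3 h3 h3'
  have c2 : i2 = i1 ∨ i2 = j1 := by
    by_contra h
    push Not at h
    exact e2 (g1 i2 h.1 h.2)
  have c3 : i3 = i1 ∨ i3 = j1 := by
    by_contra h
    push Not at h
    exact e3 (g1 i3 h.1 h.2)
  rcases c2 with c2 | c2
  · left; rw [u1, u2, c2]
  · rcases c3 with c3 | c3
    · right; left; rw [u1, u3, c3]
    · right; right; rw [u2, u3, c2, c3]

/-- a dense graph has a nonempty vertex set inducing large minimum degree -/
theorem dense_core {V : Type*} [Fintype V] [DecidableEq V] (H : SimpleGraph V)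
    [DecidableRel H.Adj] (D : ℕ) (h : D * Fintype.card V < H.edgeFinset.card) :
    ∃ U : Finset V, U.Nonempty ∧ ∀ u ∈ U, D < (U.filter (fun v => H.Adj u v)).card := by
  classical
  let s : Finset V → ℕ := fun U => ∑ u ∈ U, (U.filter (fun v => H.Adj u v)).card
  have hfull : 2 * D * (univ : Finset V).card < s univ := by
    have h1 := H.sum_degrees_eq_twice_card_edges
    have h2 : s univ = ∑ v, H.degree v := by
      apply Finset.sum_congr rfl
      intro v _
      rw [← SimpleGraph.card_neighborFinset_eq_degree]
      congr 1
      ext w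
      simp
    rw [h2, h1, Finset.card_univ]
    nlinarith
  obtain ⟨U, hU, hmin⟩ := Finset.exists_min_image
    ((univ : Finset (Finset V)).filter (fun U => 2 * D * U.card < s U)) (fun U => U.card)
    ⟨univ, by rw [Finset.mem_filter]; exact ⟨Finset.mem_univ _, hfull⟩⟩
  rw [Finset.mem_filter] at hU
  have hU2 := hU.2
  refine ⟨U, ?_, ?_⟩
  · rw [Finset.nonempty_iff_ne_empty]
    intro h0
    rw [h0] at hU2
    simp [s] at hU2
  · intro u hu
    by_contra hcon
    push Not at hcon
    have hs : s U = s (U.erase u) + 2 * (U.filter (fun v => H.Adj u v)).card := by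
      have e1 : s U = (U.filter (fun v => H.Adj u v)).card +
          ∑ w ∈ U.erase u, (U.filter (fun v => H.Adj w v)).card :=
        (Finset.add_sum_erase U (fun w => (U.filter (fun v => H.Adj w v)).card) hu).symm
      have e2 : ∀ w ∈ U.erase u, (U.filter (fun v => H.Adj w v)).card =
          ((U.erase u).filter (fun v => H.Adj w v)).card + if H.Adj u w then 1 else 0 := by
        intro w _
        by_cases hw : H.Adj u w
        · rw [if_pos hw]
          have : U.filter (fun v => H.Adj w v) =
              insert u ((U.erase u).filter (fun v => H.Adj w v)) := by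
            ext t
            simp only [Finset.mem_filter, Finset.mem_insert, Finset.mem_erase]
            constructor
            · rintro ⟨a, b⟩
              by_cases ht : t = u
              · exact Or.inl ht
              · exact Or.inr ⟨⟨ht, a⟩, b⟩
            · rintro (a | ⟨⟨_, a⟩, b⟩)
              · rw [a]; exact ⟨hu, hw.symm⟩
              · exact ⟨a, b⟩
          rw [this, Finset.card_insert_of_notMem (by simp)]
        · rw [if_neg hw, add_zero]
          congr 1
          ext t
          simp only [Finset.mem_filter, Finset.mem_erase]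
          constructor
          · rintro ⟨a, b⟩
            refine ⟨⟨?_, a⟩, b⟩
            rintro rfl
            exact hw b.symm
          · rintro ⟨⟨_, a⟩, b⟩
            exact ⟨a, b⟩
      rw [e1, Finset.sum_congr rfl e2, Finset.sum_add_distrib]
      have e3 : ∑ w ∈ U.erase u, (if H.Adj u w then 1 else 0) =
          (U.filter (fun v => H.Adj u v)).card := by
        rw [← Finset.card_filter]
        congr 1
        ext t
        simp only [Finset.mem_filter, Finset.mem_erase]
        constructor
        · rintro ⟨⟨_, a⟩, b⟩
          exact ⟨a, b⟩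
        · rintro ⟨a, b⟩
          exact ⟨⟨b.ne', a⟩, b⟩
      rw [e3]
      show _ = (∑ w ∈ U.erase u, ((U.erase u).filter (fun v => H.Adj w v)).card) + _
      ring
    have hc : (U.erase u).card + 1 = U.card := Finset.card_erase_add_one hu
    have hbig : 2 * D * (U.erase u).card < s (U.erase u) := by
      rw [← hc] at hU2
      nlinarith
    have := hmin (U.erase u) (by rw [Finset.mem_filter]; exact ⟨Finset.mem_univ _, hbig⟩)
    omega

/-- greedy rainbow embedding of trees in subgraphs of the cube -/
theorem greedy_tree {n : ℕ} (H : SimpleGraph (Fin n → Bool)) (hH : H ≤ cube n)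
    (φ : Sym2 (Fin n → Bool) → ℕ) (hφ : IsProper H φ) (U : Finset (Fin n → Bool))
    (hU : U.Nonempty) (D : ℕ)
    (hD : ∀ u ∈ U, ∃ N : Finset (Fin n → Bool), (∀ v ∈ N, v ∈ U ∧ H.Adj u v) ∧ D < N.card)
    (k : ℕ) : ∀ {W : Type} [Fintype W] [DecidableEq W] (T : SimpleGraph W), T.IsTree →
      Fintype.card W = k + 1 → k - 1 + 2 * (k - 2) / 3 ≤ D →
      ∃ f : W → (Fin n → Bool), IsRainbowCopy H φ T f ∧ ∀ w, f w ∈ U := by
  induction k with
  | zero =>
    intro W _ _ T hT hc _
    obtain ⟨w, hw⟩ := Fintype.card_eq_one_iff.1 (by simpa using hc)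
    obtain ⟨u, hu⟩ := hU
    refine ⟨fun _ => u, ⟨?_, ?_, ?_⟩, fun _ => hu⟩
    · intro a b _
      rw [hw a, hw b]
    · intro a b hab
      exact absurd ((hw a).trans (hw b).symm) hab.ne
    · intro a b c d hab
      exact absurd ((hw a).trans (hw b).symm) hab.ne
  | succ k ih =>
    intro W _ _ T hT hc hk
    classical
    have : Nontrivial W := Fintype.one_lt_card_iff_nontrivial.1 (by omega)
    obtain ⟨x, hx⟩ := hT.exists_vert_degree_one_of_nontrivial
    have hconn := hT.connected.induce_compl_singleton_of_degree_eq_one hx
    have hac := hT.isAcyclic.induce ({x}ᶜ : Set W)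
    obtain ⟨p, hxp, hup⟩ := SimpleGraph.degree_eq_one_iff_existsUnique_adj.mp hx
    have hcard : Fintype.card ({x}ᶜ : Set W) = k + 1 := by
      rw [Fintype.card_compl_set]
      simp [hc]
    set T0 := T.induce ({x}ᶜ : Set W) with hT0
    have hT0tree : T0.IsTree := ⟨hconn, hac⟩
    obtain ⟨f, ⟨hf1, hf2, hf3⟩, hfU⟩ := ih T0 hT0tree hcard (by omega)
    have hpx : p ∈ ({x}ᶜ : Set W) := by
      simp only [Set.mem_compl_iff, Set.mem_singleton_iff]
      exact hxp.ne'
    let p0 : ({x}ᶜ : Set W) := ⟨p, hpx⟩
    obtain ⟨N, hN1, hN2⟩ := hD (f p0) (hfU p0)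
    -- used colours
    let C : Finset ℕ := T0.edgeFinset.image (fun e => φ (Sym2.map f e))
    have hC : C.card ≤ k := by
      have h1 : C.card ≤ T0.edgeFinset.card := Finset.card_image_le
      have h2 := hT0tree.card_edgeFinset
      omega
    have hCmem : ∀ a b, T0.Adj a b → φ s(f a, f b) ∈ C := by
      intro a b hab
      refine Finset.mem_image.2 ⟨s(a, b), ?_, rfl⟩
      rw [SimpleGraph.mem_edgeFinset, SimpleGraph.mem_edgeSet]
      exact hab
    let B1 := N.filter (fun z => φ s(f p0, z) ∈ C)
    have hB1 : B1.card ≤ k := by
      refine le_trans ?_ hC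
      apply Finset.card_le_card_of_injOn (fun z => φ s(f p0, z))
      · intro z hz
        have hz' : z ∈ B1 := hz
        exact (Finset.mem_filter.1 hz').2
      · intro z hz z' hz' hzz
        have g1 : z ∈ B1 := hz
        have g2 : z' ∈ B1 := hz'
        by_contra hne
        exact hφ (f p0) z z' (hN1 z (Finset.mem_filter.1 g1).1).2
          (hN1 z' (Finset.mem_filter.1 g2).1).2 hne hzz
    -- placed vertices close to `f p0` which are not tree neighbours
    let B : Finset ({x}ᶜ : Set W) :=
      univ.filter (fun v => (cube n).Adj (f p0) (f v) ∧ ¬ T0.Adj p0 v)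
    have hB : B.card ≤ 2 * (k - 1) / 3 := by
      rcases Nat.eq_zero_or_pos k with h0 | h0
      · subst h0
        obtain ⟨w, hw⟩ := Fintype.card_eq_one_iff.1 hcard
        have : B = ∅ := by
          rw [Finset.eq_empty_iff_forall_notMem]
          intro v hv
          have h1 := (Finset.mem_filter.1 hv).2.1
          rw [hw v, hw p0] at h1
          exact h1.ne rfl
        rw [this]
        simp
      · have hnt : Nontrivial ({x}ᶜ : Set W) :=
          Fintype.one_lt_card_iff_nontrivial.1 (by omega)
        have hnb : ∀ v : ({x}ᶜ : Set W), ∃ q, T0.Adj v q := by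
          intro v
          obtain ⟨w, hw⟩ := exists_ne v
          obtain ⟨wk⟩ := hT0tree.connected v w
          cases wk with
          | nil => exact absurd rfl hw
          | cons h _ => exact ⟨_, h⟩
        choose q hq using hnb
        let A : Finset ({x}ᶜ : Set W) := univ.filter (fun v => par (f v) = par (f p0))
        let A' : Finset ({x}ᶜ : Set W) := univ.filter (fun v => ¬ par (f v) = par (f p0))
        have hAA : A.card + A'.card = k + 1 := by
          rw [← hcard, ← Finset.card_univ]
          exact Finset.card_filter_add_card_filter_not _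
        have hpA : p0 ∈ A := by
          rw [Finset.mem_filter]
          exact ⟨Finset.mem_univ _, rfl⟩
        have z2 : ∀ a b c : ZMod 2, a ≠ b → b ≠ c → c = a := by decide
        have hb1 : B.card ≤ 2 * (A.erase p0).card := by
          apply Finset.card_le_mul_card_image_of_maps_to (f := q)
          · intro v hv
            have hv1 := (Finset.mem_filter.1 hv).2
            rw [Finset.mem_erase]
            constructor
            · intro he
              apply hv1.2
              rw [← he]
              exact (hq v).symm
            · rw [Finset.mem_filter]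
              refine ⟨Finset.mem_univ _, ?_⟩
              exact z2 _ _ _ (par_adj hv1.1) (par_adj (hH (hf2 v (q v) (hq v))))
          · intro b hb
            by_contra hcon
            push Not at hcon
            obtain ⟨v1, v2, v3, m1, m2, m3, n12, n13, n23⟩ :=
              Finset.two_lt_card_iff.1 hcon
            rw [Finset.mem_filter] at m1 m2 m3
            have hne : f p0 ≠ f b := by
              intro h
              exact (Finset.mem_erase.1 hb).1 (hf1 h).symm
            have k1 := (Finset.mem_filter.1 m1.1).2.1
            have k2 := (Finset.mem_filter.1 m2.1).2.1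
            have k3 := (Finset.mem_filter.1 m3.1).2.1
            have l1 : (cube n).Adj (f b) (f v1) := by
              rw [← m1.2]; exact hH (hf2 _ _ (hq v1).symm)
            have l2 : (cube n).Adj (f b) (f v2) := by
              rw [← m2.2]; exact hH (hf2 _ _ (hq v2).symm)
            have l3 : (cube n).Adj (f b) (f v3) := by
              rw [← m3.2]; exact hH (hf2 _ _ (hq v3).symm)
            rcases common_two hne k1 l1 k2 l2 k3 l3 with e | e | e
            · exact n12 (hf1 e)
            · exact n13 (hf1 e)
            · exact n23 (hf1 e)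
        have hb2 : B.card + 1 ≤ A'.card := by
          have hsub : insert (q p0) B ⊆ A' := by
            intro v hv
            rw [Finset.mem_insert] at hv
            rw [Finset.mem_filter]
            refine ⟨Finset.mem_univ _, ?_⟩
            rcases hv with hv | hv
            · rw [hv]
              exact (par_adj (hH (hf2 _ _ (hq p0)))).symm
            · exact (par_adj (Finset.mem_filter.1 hv).2.1).symm
          have hnot : q p0 ∉ B := by
            intro h
            exact (Finset.mem_filter.1 h).2.2 (hq p0)
          rw [← Finset.card_insert_of_notMem hnot]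
          exact Finset.card_le_card hsub
        have hb3 := Finset.card_erase_add_one hpA
        omega
    -- blocked vertices
    let B2 := B.image f
    have hB2 : B2.card ≤ 2 * (k - 1) / 3 := le_trans Finset.card_image_le hB
    have hlt : (B1 ∪ B2).card < N.card := by
      have h1 := Finset.card_union_le B1 B2
      have h2 : k + 2 * (k - 1) / 3 ≤ D := by
        have : k + 1 - 1 + 2 * (k + 1 - 2) / 3 = k + 2 * (k - 1) / 3 := by
          congr 1
        omega
      omega
    obtain ⟨z, hzN, hz⟩ : ∃ z ∈ N, z ∉ B1 ∪ B2 := by
      by_contra hcon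
      push Not at hcon
      exact absurd (Finset.card_le_card hcon) (by omega)
    rw [Finset.mem_union, not_or] at hz
    obtain ⟨hzU, hzadj⟩ := hN1 z hzN
    have hzC : φ s(f p0, z) ∉ C := fun h => hz.1 (Finset.mem_filter.2 ⟨hzN, h⟩)
    have hzf : ∀ v, f v ≠ z := by
      intro v hv
      by_cases hav : T0.Adj p0 v
      · apply hzC
        rw [← hv]
        exact hCmem p0 v hav
      · apply hz.2
        refine Finset.mem_image.2 ⟨v, ?_, hv⟩
        rw [Finset.mem_filter]
        refine ⟨Finset.mem_univ _, ?_, hav⟩
        rw [hv]
        exact hH hzadj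
    -- the extended embedding
    let g : W → (Fin n → Bool) := fun w => if h : w ∈ ({x}ᶜ : Set W) then f ⟨w, h⟩ else z
    have hgx : g x = z := by
      have : x ∉ ({x}ᶜ : Set W) := by simp
      simp only [g, dif_neg this]
    have hgo : ∀ w (h : w ∈ ({x}ᶜ : Set W)), g w = f ⟨w, h⟩ := by
      intro w h
      simp only [g, dif_pos h]
    have hmem : ∀ w, w ≠ x → w ∈ ({x}ᶜ : Set W) := by
      intro w hw
      simpa using hw
    have hgp : g p = f p0 := hgo p hpx
    refine ⟨g, ⟨?_, ?_, ?_⟩, ?_⟩
    · intro a b hab
      by_cases ha : a = x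
      · by_cases hb : b = x
        · rw [ha, hb]
        · rw [ha, hgx, hgo b (hmem b hb)] at hab
          exact absurd hab.symm (hzf _)
      · by_cases hb : b = x
        · rw [hb, hgx, hgo a (hmem a ha)] at hab
          exact absurd hab (hzf _)
        · rw [hgo a (hmem a ha), hgo b (hmem b hb)] at hab
          exact congrArg Subtype.val (hf1 hab)
    · intro a b hab
      by_cases ha : a = x
      · subst ha
        have := hup b hab
        subst this
        rw [hgx, hgp]
        exact hzadj.symm
      · by_cases hb : b = x
        · subst hb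
          have := hup a hab.symm
          subst this
          rw [hgx, hgp]
          exact hzadj
        · rw [hgo a (hmem a ha), hgo b (hmem b hb)]
          exact hf2 _ _ hab
    · -- normal form of edges
      have hnf : ∀ a b, T.Adj a b → (s(a, b) = s(p, x) ∧ φ s(g a, g b) = φ s(f p0, z)) ∨
          (∃ (ha : a ∈ ({x}ᶜ : Set W)) (hb : b ∈ ({x}ᶜ : Set W)), T0.Adj ⟨a, ha⟩ ⟨b, hb⟩ ∧
            φ s(g a, g b) = φ s(f ⟨a, ha⟩, f ⟨b, hb⟩)) := by
        intro a b hab
        by_cases ha : a = x
        · subst ha
          have := hup b hab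
          subst this
          left
          rw [hgx, hgp]
          exact ⟨Sym2.eq_swap, by rw [Sym2.eq_swap]⟩
        · by_cases hb : b = x
          · subst hb
            have := hup a hab.symm
            subst this
            left
            rw [hgx, hgp]
            exact ⟨rfl, rfl⟩
          · right
            refine ⟨hmem a ha, hmem b hb, hab, ?_⟩
            rw [hgo a (hmem a ha), hgo b (hmem b hb)]
      intro a b c d hab hcd he
      rcases hnf a b hab with ⟨h1, h2⟩ | ⟨ha, hb, h1, h2⟩
      · rcases hnf c d hcd with ⟨h3, h4⟩ | ⟨hc', hd', h3, h4⟩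
        · rw [h1, h3]
        · rw [h2, h4] at he
          exact absurd (he ▸ hCmem _ _ h3) hzC
      · rcases hnf c d hcd with ⟨h3, h4⟩ | ⟨hc', hd', h3, h4⟩
        · rw [h2, h4] at he
          exact absurd (he ▸ hCmem _ _ h1) hzC
        · rw [h2, h4] at he
          have h5 := hf3 _ _ _ _ h1 h3 he
          have h6 := congrArg (Sym2.map Subtype.val) h5
          simpa using h6
    · intro w
      by_cases hw : w = x
      · rw [hw, hgx]; exact hzU
      · rw [hgo w (hmem w hw)]; exact hfU _

end V11174.RES
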