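import Pool.Agent.V11174.RES.Walkers

set_option autoImplicit false

namespace V11174.RES

open Finset

open Classical in
/-- ordered edges of colour `c` -/
noncomputable def acount {n : ℕ} (H : SimpleGraph (Fin n → Bool))
    (φ : Sym2 (Fin n → Bool) → ℕ) (c : ℕ) : ℕ :=
  (univ.filter (fun q : (Fin n → Bool) × (Fin n → Bool) =>
    H.Adj q.1 q.2 ∧ φ s(q.1, q.2) = c)).card

open Classical in
/-- ordered edges whose colour is in `S` -/
noncomputable def proc {n : ℕ} (H : SimpleGraph (Fin n → Bool))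
    (φ : Sym2 (Fin n → Bool) → ℕ) (S : Finset ℕ) : ℕ :=
  (univ.filter (fun q : (Fin n → Bool) × (Fin n → Bool) =>
    H.Adj q.1 q.2 ∧ φ s(q.1, q.2) ∈ S)).card

open Classical in
/-- ordered edges whose colour is not in `S` -/
noncomputable def rest {n : ℕ} (H : SimpleGraph (Fin n → Bool))
    (φ : Sym2 (Fin n → Bool) → ℕ) (S : Finset ℕ) : ℕ :=
  (univ.filter (fun q : (Fin n → Bool) × (Fin n → Bool) =>
    H.Adj q.1 q.2 ∧ φ s(q.1, q.2) ∉ S)).card

theorem proc_insert {n : ℕ} (H : SimpleGraph (Fin n → Bool))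
    (φ : Sym2 (Fin n → Bool) → ℕ) (S : Finset ℕ) (c : ℕ) (hc : c ∉ S) :
    proc H φ (insert c S) = proc H φ S + acount H φ c := by
  classical
  rw [proc, proc, acount, ← Finset.card_union_of_disjoint]
  · apply congrArg Finset.card
    ext q
    simp only [Finset.mem_filter, Finset.mem_univ, true_and, Finset.mem_union,
      Finset.mem_insert]
    tauto
  · rw [Finset.disjoint_left]
    intro q h1 h2
    have h3 := (Finset.mem_filter.1 h1).2.2
    have h4 := (Finset.mem_filter.1 h2).2.2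
    rw [h4] at h3
    exact hc h3

theorem proc_add_rest {n : ℕ} (H : SimpleGraph (Fin n → Bool))
    (φ : Sym2 (Fin n → Bool) → ℕ) (S : Finset ℕ) :
    proc H φ S + rest H φ S = 2 * H.edgeSet.ncard := by
  classical
  have hedge : H.edgeSet.ncard = H.edgeFinset.card := by
    rw [← SimpleGraph.coe_edgeFinset, Set.ncard_coe_finset]
  rw [hedge]
  have h1 : proc H φ S + rest H φ S = (univ.filter (fun q : (Fin n → Bool) × (Fin n → Bool) =>
      H.Adj q.1 q.2)).card := by
    rw [proc, rest, ← Finset.card_union_of_disjoint]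
    · apply congrArg Finset.card
      ext q
      simp only [Finset.mem_filter, Finset.mem_univ, true_and, Finset.mem_union]
      tauto
    · rw [Finset.disjoint_left]
      intro q h1 h2
      exact (Finset.mem_filter.1 h2).2.2 (Finset.mem_filter.1 h1).2.2
  rw [h1, Finset.card_filter, Fintype.sum_prod_type, ← H.sum_degrees_eq_twice_card_edges]
  apply Finset.sum_congr rfl
  intro v _
  rw [← Finset.card_filter, ← SimpleGraph.card_neighborFinset_eq_degree]
  apply congrArg Finset.card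
  ext w
  simp

open Classical in
theorem choose_colour {n : ℕ} {H : SimpleGraph (Fin n → Bool)}
    {φ : Sym2 (Fin n → Bool) → ℕ} {L : ℕ} {S : Finset ℕ}
    {m : (Fin n → Bool) → ℕ} {g : (Fin n → Bool) → ℕ → (Fin n → Bool)}
    (F : ℕ) (hF : ∀ v, (univ.filter (fun w => H.Adj v w ∧ Forb L m g v w)).card ≤ F)
    (R : Finset ℕ) (hR : ∀ v w, H.Adj v w → φ s(v, w) ∈ R) (Y : ℕ) (hY : 0 < Y)
    (hrest : Y ≤ rest H φ S) :
    ∃ c ∈ R \ S, (univ.filter (fun q : (Fin n → Bool) × (Fin n → Bool) =>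
        (H.Adj q.1 q.2 ∧ φ s(q.1, q.2) = c) ∧ Forb L m g q.1 q.2)).card * Y ≤
      acount H φ c * (F * 2 ^ n) := by
  by_contra hcon
  push Not at hcon
  have e1 : rest H φ S = ∑ c ∈ R \ S, acount H φ c := by
    rw [rest, Finset.card_eq_sum_card_fiberwise (f := fun q : (Fin n → Bool) × (Fin n → Bool) =>
      φ s(q.1, q.2)) (t := R \ S)]
    · apply Finset.sum_congr rfl
      intro c hc
      rw [acount, Finset.filter_filter]
      apply congrArg Finset.card
      ext q
      simp only [Finset.mem_filter, Finset.mem_univ, true_and]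
      constructor
      · rintro ⟨⟨a, b⟩, d⟩
        exact ⟨a, d⟩
      · rintro ⟨a, d⟩
        exact ⟨⟨a, by rw [d]; exact (Finset.mem_sdiff.1 hc).2⟩, d⟩
    · intro q hq
      have hq' := (Finset.mem_filter.1 (show q ∈ univ.filter _ from hq)).2
      exact Finset.mem_coe.2 (Finset.mem_sdiff.2 ⟨hR _ _ hq'.1, hq'.2⟩)
  have e2 : ∑ c ∈ R \ S, (univ.filter (fun q : (Fin n → Bool) × (Fin n → Bool) =>
        (H.Adj q.1 q.2 ∧ φ s(q.1, q.2) = c) ∧ Forb L m g q.1 q.2)).card ≤ F * 2 ^ n := by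
    have e3 : ∑ c ∈ R \ S, (univ.filter (fun q : (Fin n → Bool) × (Fin n → Bool) =>
        (H.Adj q.1 q.2 ∧ φ s(q.1, q.2) = c) ∧ Forb L m g q.1 q.2)).card =
        ((R \ S).biUnion (fun c => univ.filter (fun q : (Fin n → Bool) × (Fin n → Bool) =>
        (H.Adj q.1 q.2 ∧ φ s(q.1, q.2) = c) ∧ Forb L m g q.1 q.2))).card := by
      rw [Finset.card_biUnion]
      intro c _ c' _ hcc
      refine Finset.disjoint_left.2 ?_
      intro q h1 h2
      have h3 := (Finset.mem_filter.1 h1).2.1.2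
      have h4 := (Finset.mem_filter.1 h2).2.1.2
      exact hcc (h3.symm.trans h4)
    rw [e3]
    have e4 : ((R \ S).biUnion (fun c => univ.filter (fun q : (Fin n → Bool) × (Fin n → Bool) =>
        (H.Adj q.1 q.2 ∧ φ s(q.1, q.2) = c) ∧ Forb L m g q.1 q.2))).card ≤
        (univ.filter (fun q : (Fin n → Bool) × (Fin n → Bool) =>
          H.Adj q.1 q.2 ∧ Forb L m g q.1 q.2)).card := by
      apply Finset.card_le_card
      intro q hq
      obtain ⟨c, -, hq'⟩ := Finset.mem_biUnion.1 hq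
      obtain ⟨-, ⟨h1, -⟩, h2⟩ := Finset.mem_filter.1 hq'
      exact Finset.mem_filter.2 ⟨Finset.mem_univ _, h1, h2⟩
    refine le_trans e4 ?_
    rw [Finset.card_filter, Fintype.sum_prod_type]
    have e5 : ∀ v : Fin n → Bool, ∑ w : Fin n → Bool,
        (if H.Adj v w ∧ Forb L m g v w then 1 else 0) ≤ F := by
      intro v
      rw [← Finset.card_filter]
      exact hF v
    refine le_trans (Finset.sum_le_sum (fun v _ => e5 v)) ?_
    rw [Finset.sum_const, Finset.card_univ, Fintype.card_fun, Fintype.card_bool,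
      Fintype.card_fin, smul_eq_mul, mul_comm]
  have hne : (R \ S).Nonempty := by
    rw [Finset.nonempty_iff_ne_empty]
    intro h0
    rw [h0, Finset.sum_empty] at e1
    omega
  have e6 := Finset.sum_lt_sum_of_nonempty hne hcon
  rw [← Finset.sum_mul, ← Finset.sum_mul, ← e1] at e6
  have e7 := Nat.mul_le_mul_right Y e2
  have e8 : F * 2 ^ n * Y ≤ F * 2 ^ n * rest H φ S := Nat.mul_le_mul_left _ hrest
  have e9 : rest H φ S * (F * 2 ^ n) = F * 2 ^ n * rest H φ S := by ring
  omega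

theorem run {n : ℕ} {H : SimpleGraph (Fin n → Bool)} (hH : H ≤ cube n)
    {φ : Sym2 (Fin n → Bool) → ℕ} (hφ : IsProper H φ) (k L M : ℕ) (hL : 0 < L)
    (hM : 2 * k ≤ M * L)
    (hno : ¬ ∃ f : Fin (k + 1) → (Fin n → Bool),
      IsRainbowCopy H φ (SimpleGraph.pathGraph (k + 1)) f)
    (R : Finset ℕ) (hR : ∀ v w, H.Adj v w → φ s(v, w) ∈ R) (Y : ℕ) (hY : 0 < Y) (N : ℕ) :
    ∀ S : Finset ℕ, (R \ S).card = N →
    ∀ m g, Inv H φ L S m g →
      Y * proc H φ S ≤ Y * (∑ v, m v) + (2 * ((L + M) * 2 ^ n)) * proc H φ S →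
    ∃ S' m' g', Inv H φ L S' m' g' ∧
      Y * proc H φ S' ≤ Y * (∑ v, m' v) + (2 * ((L + M) * 2 ^ n)) * proc H φ S' ∧
      rest H φ S' < Y := by
  classical
  induction N with
  | zero =>
    intro S hS m g hI hin
    refine ⟨S, m, g, hI, hin, ?_⟩
    by_contra hcon
    push Not at hcon
    obtain ⟨c, hc, -⟩ := choose_colour (L + M) (fun v => forb_count hH hI v M (by
      have := inv_len hI k hno v
      omega) hL) R hR Y hY hcon
    rw [Finset.card_eq_zero] at hS
    rw [hS] at hc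
    simp at hc
  | succ N ih =>
    intro S hS m g hI hin
    by_cases hr : rest H φ S < Y
    · exact ⟨S, m, g, hI, hin, hr⟩
    · push Not at hr
      obtain ⟨c, hc, hcb⟩ := choose_colour (L + M) (fun v => forb_count hH hI v M (by
        have := inv_len hI k hno v
        omega) hL) R hR Y hY hr
      have hcS := (Finset.mem_sdiff.1 hc).2
      obtain ⟨m', g', hI', hsum⟩ := step hφ hI c hcS
      apply ih (insert c S) ?_ m' g' hI' ?_
      · have : R \ insert c S = (R \ S).erase c := by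
          ext x
          simp only [Finset.mem_sdiff, Finset.mem_insert, Finset.mem_erase]
          tauto
        rw [this, Finset.card_erase_of_mem hc, hS]
        rfl
      · rw [proc_insert H φ S c hcS]
        set b := (univ.filter (fun q : (Fin n → Bool) × (Fin n → Bool) =>
          (H.Adj q.1 q.2 ∧ φ s(q.1, q.2) = c) ∧ Forb L m g q.1 q.2)).card with hb
        have hsum' : (∑ v, m v) + acount H φ c ≤ (∑ v, m' v) + 2 * b := hsum
        set a := acount H φ c with ha
        set P := proc H φ S with hP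
        set X := ∑ v, m v with hX
        set X' := ∑ v, m' v with hX'
        set G := (L + M) * 2 ^ n with hG
        have h1 := Nat.mul_le_mul_left Y hsum'
        nlinarith

/-- upper bound for paths -/
theorem paths_bound {n : ℕ} {H : SimpleGraph (Fin n → Bool)}
    (hH : H ≤ cube n)
    {φ : Sym2 (Fin n → Bool) → ℕ} (hφ : IsProper H φ) (k s : ℕ) (hk : 1 ≤ k) (hs : 3 ≤ s)
    (hks : k ≤ s ^ 4)
    (hno : ¬ ∃ f : Fin (k + 1) → (Fin n → Bool),
      IsRainbowCopy H φ (SimpleGraph.pathGraph (k + 1)) f) :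
    2 * H.edgeSet.ncard ≤ (k - 1 + 7 * s ^ 3) * 2 ^ n := by
  classical
  let R : Finset ℕ := univ.image (fun q : (Fin n → Bool) × (Fin n → Bool) => φ s(q.1, q.2))
  have hR : ∀ v w, H.Adj v w → φ s(v, w) ∈ R := fun v w _ =>
    Finset.mem_image.2 ⟨(v, w), Finset.mem_univ _, rfl⟩
  have hN : 0 < 2 ^ n := by positivity
  have hs3 : 0 < s ^ 3 := by positivity
  have hs2 : 0 < s ^ 2 := by positivity
  have hI0 : Inv H φ (s ^ 2) ∅ (fun _ => 0) (fun v _ => v) := by
    intro v
    refine ⟨rfl, fun i hi => absurd hi (Nat.not_lt_zero _), ?_,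
      fun i hi => absurd hi (Nat.not_lt_zero _), fun i hi => absurd hi (Nat.not_lt_zero _), ?_⟩
    · intro i hi j hj _
      have hi' : i ≤ 0 := hi
      have hj' : j ≤ 0 := hj
      omega
    · have : (range (0 + 1)).filter (fun _ => (cube n).Adj v v) = ∅ := by
        rw [Finset.filter_eq_empty_iff]
        intro i _ h
        exact h.ne rfl
      show ((range (0 + 1)).filter (fun _ => (cube n).Adj v v)).card ≤ s ^ 2
      rw [this]
      exact Nat.zero_le _
  have hproc0 : proc H φ ∅ = 0 := by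
    rw [proc, Finset.card_eq_zero, Finset.filter_eq_empty_iff]
    rintro q _ ⟨-, h⟩
    simp at h
  obtain ⟨S, m, g, hI, hin, hrest⟩ := run hH hφ k (s ^ 2) (2 * s ^ 2) hs2 (by
    have : 2 * s ^ 2 * s ^ 2 = 2 * s ^ 4 := by ring
    omega) hno R hR (4 * s ^ 3 * 2 ^ n) (by positivity) (R \ ∅).card ∅ rfl
    (fun _ => 0) (fun v _ => v) hI0 (by rw [hproc0]; simp)
  have hm : ∑ v, m v ≤ (k - 1) * 2 ^ n := by
    have h1 : ∑ v, m v ≤ ∑ _v : Fin n → Bool, (k - 1) := by
      apply Finset.sum_le_sum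
      intro v _
      have := inv_len hI k hno v
      omega
    refine le_trans h1 ?_
    rw [Finset.sum_const, Finset.card_univ, Fintype.card_fun, Fintype.card_bool,
      Fintype.card_fin, smul_eq_mul, mul_comm]
  have hpr := proc_add_rest H φ S
  obtain ⟨j, rfl⟩ : ∃ j, k = j + 1 := ⟨k - 1, by omega⟩
  obtain ⟨r, rfl⟩ : ∃ r, s = r + 3 := ⟨s - 3, by omega⟩
  rw [Nat.add_sub_cancel] at hm ⊢
  set P := proc H φ S with hP
  set Q := rest H φ S with hQ
  set X := ∑ v, m v with hX
  set E := H.edgeSet.ncard with hE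
  set N := 2 ^ n with hNN
  -- cancel the common factor
  have h2 : (2 * r + 3) * P ≤ 2 * (r + 3) * (j * N) := by
    have h3 : (2 * (r + 3) ^ 2 * N) * ((2 * r + 3) * P) ≤
        (2 * (r + 3) ^ 2 * N) * (2 * (r + 3) * (j * N)) := by
      have h4 : 4 * (r + 3) ^ 3 * N * P ≤ 4 * (r + 3) ^ 3 * N * X +
          (2 * (((r + 3) ^ 2 + 2 * (r + 3) ^ 2) * N)) * P := hin
      have h5 : 4 * (r + 3) ^ 3 * N * X ≤ 4 * (r + 3) ^ 3 * N * (j * N) :=
        Nat.mul_le_mul_left _ hm
      have h6 : 4 * (r + 3) ^ 3 * N * P =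
          (2 * (r + 3) ^ 2 * N) * ((2 * r + 3) * P) +
            (2 * (((r + 3) ^ 2 + 2 * (r + 3) ^ 2) * N)) * P := by ring
      have h7 : 4 * (r + 3) ^ 3 * N * (j * N) =
        (2 * (r + 3) ^ 2 * N) * (2 * (r + 3) * (j * N)) := by ring
      omega
    exact Nat.le_of_mul_le_mul_left h3 (by positivity)
  have h8 : (2 * r + 3) * (2 * E) ≤ (2 * r + 3) * ((j + 7 * (r + 3) ^ 3) * N) := by
    have h9 : (2 * r + 3) * (2 * E) ≤ (2 * r + 3) * P + (2 * r + 3) * (4 * (r + 3) ^ 3 * N) := by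
      rw [← mul_add, ← hpr]
      exact Nat.mul_le_mul_left _ (by omega)
    have h10 : 3 * (j * N) ≤ (2 * r + 3) * (3 * (r + 3) ^ 3) * N := by
      have h11 : 3 * j ≤ (2 * r + 3) * (3 * (r + 3) ^ 3) := by
        have h12 : j ≤ (r + 3) ^ 4 := by omega
        have h13 : (r + 3) ^ 4 = (r + 3) * (r + 3) ^ 3 := by ring
        nlinarith [Nat.zero_le (r * (r + 3) ^ 3)]
      calc 3 * (j * N) = 3 * j * N := by ring
        _ ≤ _ := Nat.mul_le_mul_right _ h11
    have h14 : (2 * r + 3) * ((j + 7 * (r + 3) ^ 3) * N) =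
        (2 * r + 3) * (j * N) + (2 * r + 3) * (3 * (r + 3) ^ 3) * N +
          (2 * r + 3) * (4 * (r + 3) ^ 3 * N) := by ring
    have h15 : 2 * (r + 3) * (j * N) = (2 * r + 3) * (j * N) + 3 * (j * N) := by ring
    omega
  exact Nat.le_of_mul_le_mul_left h8 (by positivity)

end V11174.RES
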