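import Pool.Agent.V11174.RES.Greedy

set_option autoImplicit false

namespace V11174.RES

open Finset

open Classical in
/-- number of tree vertices placed next to `q` in the cube without being tree neighbours -/
noncomputable def ucount {n : ℕ} {W : Type} [Fintype W] (T : SimpleGraph W)
    (f : W → (Fin n → Bool)) (q : W) : ℕ :=
  ∑ v, if (cube n).Adj (f q) (f v) ∧ ¬ T.Adj q v then 1 else 0

theorem ucount_card {n : ℕ} {W : Type} [Fintype W] (T : SimpleGraph W)
    (f : W → (Fin n → Bool)) (q : W)
    [DecidablePred (fun v => (cube n).Adj (f q) (f v) ∧ ¬ T.Adj q v)] :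
    ucount T f q = (univ.filter (fun v => (cube n).Adj (f q) (f v) ∧ ¬ T.Adj q v)).card := by
  rw [ucount, Finset.card_filter]
  apply Finset.sum_congr rfl
  intro v _
  by_cases h : (cube n).Adj (f q) (f v) ∧ ¬ T.Adj q v
  · rw [if_pos h, if_pos h]
  · rw [if_neg h, if_neg h]

theorem sum_split {W : Type} [Fintype W] [DecidableEq W] (x : W) (F : W → ℕ)
    [Fintype ({x}ᶜ : Set W)] :
    ∑ v, F v = F x + ∑ v : ({x}ᶜ : Set W), F v.1 := by
  rw [← Finset.add_sum_erase univ F (Finset.mem_univ x)]
  congr 1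
  apply Finset.sum_subtype
  intro y
  simp

/-- extension of a rainbow copy by one leaf -/
theorem extend_copy {n : ℕ} (H : SimpleGraph (Fin n → Bool))
    (φ : Sym2 (Fin n → Bool) → ℕ) {W : Type} (T : SimpleGraph W) (x p : W)
    (hxp : T.Adj x p) (hup : ∀ y, T.Adj x y → y = p)
    (f : ({x}ᶜ : Set W) → (Fin n → Bool))
    (hf : IsRainbowCopy H φ (T.induce ({x}ᶜ : Set W)) f)
    (hpx : p ∈ ({x}ᶜ : Set W)) (z : Fin n → Bool) (hzadj : H.Adj (f ⟨p, hpx⟩) z)
    (hzC : ∀ a b, (T.induce ({x}ᶜ : Set W)).Adj a b → φ s(f a, f b) ≠ φ s(f ⟨p, hpx⟩, z))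
    (hzf : ∀ v, f v ≠ z) :
    ∃ g : W → (Fin n → Bool), g x = z ∧ (∀ w (h : w ∈ ({x}ᶜ : Set W)), g w = f ⟨w, h⟩) ∧
      IsRainbowCopy H φ T g := by
  classical
  obtain ⟨hf1, hf2, hf3⟩ := hf
  let g : W → (Fin n → Bool) := fun w => if h : w ∈ ({x}ᶜ : Set W) then f ⟨w, h⟩ else z
  have hgx : g x = z := by
    have : x ∉ ({x}ᶜ : Set W) := by simp
    simp only [g, dif_neg this]
  have hgo : ∀ w (h : w ∈ ({x}ᶜ : Set W)), g w = f ⟨w, h⟩ := by
    intro w h
    simp only [g, dif_pos h]
  have hmem : ∀ w, w ≠ x → w ∈ ({x}ᶜ : Set W) := by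
    intro w hw
    simpa using hw
  have hgp : g p = f ⟨p, hpx⟩ := hgo p hpx
  refine ⟨g, hgx, hgo, ?_, ?_, ?_⟩
  · intro a b hab
    by_cases ha : a = x
    · by_cases hb : b = x
      · rw [ha, hb]
      · rw [ha, hgx, hgo b (hmem b hb)] at hab
        exact absurd hab.symm (hzf _)
    · by_cases hb : b = x
      · rw [hb, hgx, hgo a (hmem a ha)] at hab
        exact absurd hab (hzf _)
      · rw [hgo a (hmem a ha), hgo b (hmem b hb)] at hab
        exact congrArg Subtype.val (hf1 hab)
  · intro a b hab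
    by_cases ha : a = x
    · subst ha
      have := hup b hab
      subst this
      rw [hgx, hgp]
      exact hzadj.symm
    · by_cases hb : b = x
      · subst hb
        have := hup a hab.symm
        subst this
        rw [hgx, hgp]
        exact hzadj
      · rw [hgo a (hmem a ha), hgo b (hmem b hb)]
        exact hf2 _ _ hab
  · -- normal form of edges
    have hnf : ∀ a b, T.Adj a b → (s(a, b) = s(p, x) ∧ φ s(g a, g b) = φ s(f ⟨p, hpx⟩, z)) ∨
        (∃ (ha : a ∈ ({x}ᶜ : Set W)) (hb : b ∈ ({x}ᶜ : Set W)),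
          (T.induce ({x}ᶜ : Set W)).Adj ⟨a, ha⟩ ⟨b, hb⟩ ∧
          φ s(g a, g b) = φ s(f ⟨a, ha⟩, f ⟨b, hb⟩)) := by
      intro a b hab
      by_cases ha : a = x
      · subst ha
        have := hup b hab
        subst this
        left
        rw [hgx, hgp]
        exact ⟨Sym2.eq_swap, by rw [Sym2.eq_swap]⟩
      · by_cases hb : b = x
        · subst hb
          have := hup a hab.symm
          subst this
          left
          rw [hgx, hgp]
          exact ⟨rfl, rfl⟩
        · right
          refine ⟨hmem a ha, hmem b hb, hab, ?_⟩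
          rw [hgo a (hmem a ha), hgo b (hmem b hb)]
    intro a b c d hab hcd he
    rcases hnf a b hab with ⟨h1, h2⟩ | ⟨ha, hb, h1, h2⟩
    · rcases hnf c d hcd with ⟨h3, h4⟩ | ⟨hc', hd', h3, h4⟩
      · rw [h1, h3]
      · rw [h2, h4] at he
        exact absurd he.symm (hzC _ _ h3)
    · rcases hnf c d hcd with ⟨h3, h4⟩ | ⟨hc', hd', h3, h4⟩
      · rw [h2, h4] at he
        exact absurd he (hzC _ _ h1)
      · rw [h2, h4] at he
        have h5 := hf3 _ _ _ _ h1 h3 he
        have h6 := congrArg (Sym2.map Subtype.val) h5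
        simpa using h6

/-- embedding trees while keeping the number of accidental adjacencies small -/
theorem smart_tree {n : ℕ} (H : SimpleGraph (Fin n → Bool)) (hH : H ≤ cube n)
    (φ : Sym2 (Fin n → Bool) → ℕ) (hφ : IsProper H φ) (U : Finset (Fin n → Bool))
    (hU : U.Nonempty) (D K m u t : ℕ) (hm : 2 * K < (t + 1) * m) (htu : t ≤ u) (hu : 0 < u)
    (hDK : K - 1 + u + 2 * (2 * t * K / u) + m ≤ D + 1)
    (hD : ∀ u ∈ U, ∃ N : Finset (Fin n → Bool), (∀ v ∈ N, v ∈ U ∧ H.Adj u v) ∧ D < N.card)
    (j : ℕ) : ∀ {W : Type} [Fintype W] [DecidableEq W] (T : SimpleGraph W), T.IsTree →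
      Fintype.card W = j + 1 → j ≤ K →
      ∃ f : W → (Fin n → Bool), IsRainbowCopy H φ T f ∧ (∀ w, f w ∈ U) ∧
        (∀ q, ucount T f q ≤ u) ∧ ∑ q, ucount T f q ≤ 2 * t * j := by
  induction j with
  | zero =>
    intro W _ _ T hT hc _
    obtain ⟨w, hw⟩ := Fintype.card_eq_one_iff.1 (by simpa using hc)
    obtain ⟨y, hy⟩ := hU
    have h0 : ∀ q, ucount T (fun _ : W => y) q = 0 := by
      intro q
      apply Finset.sum_eq_zero
      intro v _
      rw [if_neg]
      rintro ⟨h, -⟩
      exact h.ne rfl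
    refine ⟨fun _ => y, ⟨?_, ?_, ?_⟩, fun _ => hy, ?_, ?_⟩
    · intro a b _
      rw [hw a, hw b]
    · intro a b hab
      exact absurd ((hw a).trans (hw b).symm) hab.ne
    · intro a b c d hab
      exact absurd ((hw a).trans (hw b).symm) hab.ne
    · intro q
      rw [h0]
      exact Nat.zero_le _
    · simp [h0]
  | succ j ih =>
    intro W _ _ T hT hc hjK
    classical
    have : Nontrivial W := Fintype.one_lt_card_iff_nontrivial.1 (by omega)
    obtain ⟨x, hx⟩ := hT.exists_vert_degree_one_of_nontrivial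
    have hconn := hT.connected.induce_compl_singleton_of_degree_eq_one hx
    have hac := hT.isAcyclic.induce ({x}ᶜ : Set W)
    obtain ⟨p, hxp, hup⟩ := SimpleGraph.degree_eq_one_iff_existsUnique_adj.mp hx
    have hcard : Fintype.card ({x}ᶜ : Set W) = j + 1 := by
      rw [Fintype.card_compl_set]
      simp [hc]
    have hT0tree : (T.induce ({x}ᶜ : Set W)).IsTree := ⟨hconn, hac⟩
    obtain ⟨f, hfr, hfU, hfu, hfs⟩ := ih (T.induce ({x}ᶜ : Set W)) hT0tree hcard (by omega)
    obtain ⟨hf1, hf2, hf3⟩ := id hfr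
    have hpx : p ∈ ({x}ᶜ : Set W) := by
      simp only [Set.mem_compl_iff, Set.mem_singleton_iff]
      exact hxp.ne'
    let p0 : ({x}ᶜ : Set W) := ⟨p, hpx⟩
    obtain ⟨N, hN1, hN2⟩ := hD (f p0) (hfU p0)
    -- used colours
    let C : Finset ℕ := (T.induce ({x}ᶜ : Set W)).edgeFinset.image (fun e => φ (Sym2.map f e))
    have hC : C.card ≤ j := by
      have h1 : C.card ≤ (T.induce ({x}ᶜ : Set W)).edgeFinset.card := Finset.card_image_le
      have h2 := hT0tree.card_edgeFinset
      omega
    have hCmem : ∀ a b, (T.induce ({x}ᶜ : Set W)).Adj a b → φ s(f a, f b) ∈ C := by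
      intro a b hab
      refine Finset.mem_image.2 ⟨s(a, b), ?_, rfl⟩
      rw [SimpleGraph.mem_edgeFinset, SimpleGraph.mem_edgeSet]
      exact hab
    let B1 := N.filter (fun z => φ s(f p0, z) ∈ C)
    have hB1 : B1.card ≤ K - 1 := by
      have : B1.card ≤ C.card := by
        apply Finset.card_le_card_of_injOn (fun z => φ s(f p0, z))
        · intro z hz
          have hz' : z ∈ B1 := hz
          exact (Finset.mem_filter.1 hz').2
        · intro z hz z' hz' hzz
          have g1 : z ∈ B1 := hz
          have g2 : z' ∈ B1 := hz'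
          by_contra hne
          exact hφ (f p0) z z' (hN1 z (Finset.mem_filter.1 g1).1).2
            (hN1 z' (Finset.mem_filter.1 g2).1).2 hne hzz
      omega
    let B : Finset ({x}ᶜ : Set W) :=
      univ.filter (fun v => (cube n).Adj (f p0) (f v) ∧ ¬ (T.induce ({x}ᶜ : Set W)).Adj p0 v)
    have hB : B.card ≤ u := by
      have h1 := hfu p0
      have h2 : ucount (T.induce ({x}ᶜ : Set W)) f p0 = B.card := ucount_card _ _ _
      omega
    let B2 := B.image f
    have hB2 : B2.card ≤ u := le_trans Finset.card_image_le hB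
    -- saturated vertices
    let Sat : Finset ({x}ᶜ : Set W) :=
      univ.filter (fun q => q ≠ p0 ∧ u ≤ ucount (T.induce ({x}ᶜ : Set W)) f q)
    have hSat : Sat.card ≤ 2 * t * K / u := by
      rw [Nat.le_div_iff_mul_le hu]
      have h1 : Sat.card * u ≤ ∑ q ∈ Sat, ucount (T.induce ({x}ᶜ : Set W)) f q := by
        rw [← smul_eq_mul, ← Finset.sum_const]
        apply Finset.sum_le_sum
        intro q hq
        exact (Finset.mem_filter.1 hq).2.2
      have h2 : ∑ q ∈ Sat, ucount (T.induce ({x}ᶜ : Set W)) f q ≤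
          ∑ q, ucount (T.induce ({x}ᶜ : Set W)) f q :=
        Finset.sum_le_sum_of_subset (Finset.subset_univ _)
      have h3 : 2 * t * j ≤ 2 * t * K := Nat.mul_le_mul_left _ (by omega)
      omega
    have htwo : ∀ q : ({x}ᶜ : Set W), q ≠ p0 →
        (N.filter (fun z => (cube n).Adj (f q) z)).card ≤ 2 := by
      intro q hq
      by_contra hcon
      push Not at hcon
      obtain ⟨z1, z2, z3, m1, m2, m3, n12, n13, n23⟩ := Finset.two_lt_card_iff.1 hcon
      rw [Finset.mem_filter] at m1 m2 m3
      have hne : f q ≠ f p0 := fun h => hq (hf1 h)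
      rcases common_two hne m1.2 (hH (hN1 z1 m1.1).2) m2.2 (hH (hN1 z2 m2.1).2)
        m3.2 (hH (hN1 z3 m3.1).2) with e | e | e
      · exact n12 e
      · exact n13 e
      · exact n23 e
    let B3 := Sat.biUnion (fun q => N.filter (fun z => (cube n).Adj (f q) z))
    have hB3 : B3.card ≤ 2 * (2 * t * K / u) := by
      have h1 : B3.card ≤ Sat.card * 2 := by
        apply Finset.card_biUnion_le_card_mul
        intro q hq
        exact htwo q (Finset.mem_filter.1 hq).2.1
      omega
    let Z := N \ (B1 ∪ B2 ∪ B3)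
    have hZ : m ≤ Z.card := by
      have h1 := Finset.le_card_sdiff (B1 ∪ B2 ∪ B3) N
      have h2 := Finset.card_union_le (B1 ∪ B2) B3
      have h3 := Finset.card_union_le B1 B2
      have h4 : Z.card = (N \ (B1 ∪ B2 ∪ B3)).card := rfl
      omega
    -- averaging
    let d : (Fin n → Bool) → ℕ := fun z =>
      (univ.filter (fun v : ({x}ᶜ : Set W) => v ≠ p0 ∧ (cube n).Adj (f v) z)).card
    obtain ⟨z, hzZ, hdz⟩ : ∃ z ∈ Z, d z ≤ t := by
      by_contra hcon
      push Not at hcon
      have h1 : Z.card * (t + 1) ≤ ∑ z ∈ Z, d z := by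
        rw [← smul_eq_mul, ← Finset.sum_const]
        apply Finset.sum_le_sum
        intro z hz
        exact hcon z hz
      have h2 : ∑ z ∈ Z, d z = ∑ v ∈ (univ : Finset ({x}ᶜ : Set W)).erase p0,
          (Z.filter (fun z => (cube n).Adj (f v) z)).card := by
        have e1 : ∀ z ∈ Z, d z = ∑ v ∈ (univ : Finset ({x}ᶜ : Set W)).erase p0,
            if (cube n).Adj (f v) z then 1 else 0 := by
          intro z _
          rw [← Finset.card_filter]
          apply congrArg Finset.card
          ext v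
          simp
        rw [Finset.sum_congr rfl e1, Finset.sum_comm]
        apply Finset.sum_congr rfl
        intro v _
        rw [Finset.card_filter]
      have h3 : ∑ v ∈ (univ : Finset ({x}ᶜ : Set W)).erase p0,
          (Z.filter (fun z => (cube n).Adj (f v) z)).card ≤
          ∑ v ∈ (univ : Finset ({x}ᶜ : Set W)).erase p0, 2 := by
        apply Finset.sum_le_sum
        intro v hv
        refine le_trans (Finset.card_le_card ?_) (htwo v (Finset.ne_of_mem_erase hv))
        exact Finset.filter_subset_filter _ Finset.sdiff_subset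
      rw [Finset.sum_const, Finset.card_erase_of_mem (Finset.mem_univ _), Finset.card_univ,
        hcard, smul_eq_mul] at h3
      have h4 : (t + 1) * m ≤ Z.card * (t + 1) := by
        rw [mul_comm]
        exact Nat.mul_le_mul_right _ hZ
      omega
    have hzN : z ∈ N := (Finset.mem_sdiff.1 hzZ).1
    have hzB := (Finset.mem_sdiff.1 hzZ).2
    rw [Finset.mem_union, Finset.mem_union, not_or, not_or] at hzB
    obtain ⟨hzU, hzadj⟩ := hN1 z hzN
    have hzC : φ s(f p0, z) ∉ C := fun h => hzB.1.1 (Finset.mem_filter.2 ⟨hzN, h⟩)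
    have hzf : ∀ v, f v ≠ z := by
      intro v hv
      by_cases hav : (T.induce ({x}ᶜ : Set W)).Adj p0 v
      · apply hzC
        rw [← hv]
        exact hCmem p0 v hav
      · apply hzB.1.2
        refine Finset.mem_image.2 ⟨v, ?_, hv⟩
        rw [Finset.mem_filter]
        refine ⟨Finset.mem_univ _, ?_, hav⟩
        rw [hv]
        exact hH hzadj
    obtain ⟨g, hgx, hgo, hgr⟩ := extend_copy H φ T x p hxp hup f hfr hpx z hzadj
      (fun a b hab he => hzC (he ▸ hCmem a b hab)) hzf
    -- adjacency to the new leaf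
    have hadjx : ∀ v : ({x}ᶜ : Set W), T.Adj v.1 x ↔ v = p0 := by
      intro v
      constructor
      · intro h
        exact Subtype.ext (hup v.1 h.symm)
      · intro h
        rw [h]
        exact hxp.symm
    have hucx : ucount T g x = d z := by
      rw [ucount, sum_split x]
      rw [if_neg (fun h => h.1.ne rfl), zero_add, ← Finset.card_filter]
      apply congrArg Finset.card
      ext v
      simp only [Finset.mem_filter, Finset.mem_univ, true_and]
      rw [hgx, hgo v.1 v.2, SimpleGraph.adj_comm, T.adj_comm x v.1, hadjx v]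
      tauto
    have huco : ∀ v : ({x}ᶜ : Set W), ucount T g v.1 =
        (if v ≠ p0 ∧ (cube n).Adj (f v) z then 1 else 0) +
          ucount (T.induce ({x}ᶜ : Set W)) f v := by
      intro v
      rw [ucount, sum_split x]
      congr 1
      · rw [hgx, hgo v.1 v.2, hadjx v]
        by_cases h1 : v = p0 <;> by_cases h2 : (cube n).Adj (f v) z <;> simp [h1, h2]
      · rw [ucount]
        apply Finset.sum_congr rfl
        intro w _
        rw [hgo v.1 v.2, hgo w.1 w.2]
        rfl
    refine ⟨g, hgr, ?_, ?_, ?_⟩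
    · intro w
      by_cases hw : w = x
      · rw [hw, hgx]; exact hzU
      · rw [hgo w (by simpa using hw)]; exact hfU _
    · intro q
      by_cases hq : q = x
      · rw [hq, hucx]
        omega
      · have hqm : q ∈ ({x}ᶜ : Set W) := by simpa using hq
        have h1 := huco ⟨q, hqm⟩
        simp only at h1
        rw [h1]
        have h2 := hfu ⟨q, hqm⟩
        by_cases h3 : (⟨q, hqm⟩ : ({x}ᶜ : Set W)) ≠ p0 ∧ (cube n).Adj (f ⟨q, hqm⟩) z
        · rw [if_pos h3]
          have h4 : ¬ u ≤ ucount (T.induce ({x}ᶜ : Set W)) f ⟨q, hqm⟩ := by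
            intro h5
            apply hzB.2
            refine Finset.mem_biUnion.2 ⟨⟨q, hqm⟩, ?_, ?_⟩
            · rw [Finset.mem_filter]
              exact ⟨Finset.mem_univ _, h3.1, h5⟩
            · rw [Finset.mem_filter]
              exact ⟨hzN, h3.2⟩
          omega
        · rw [if_neg h3]
          omega
    · rw [sum_split x, hucx]
      have h1 : ∑ v : ({x}ᶜ : Set W), ucount T g v.1 =
          d z + ∑ v : ({x}ᶜ : Set W), ucount (T.induce ({x}ᶜ : Set W)) f v := by
        rw [Finset.sum_congr rfl (fun v _ => huco v), Finset.sum_add_distrib,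
          ← Finset.card_filter]
      rw [h1]
      have h2 : 2 * t * (j + 1) = 2 * t * j + 2 * t := by ring
      omega

end V11174.RES
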