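import Pool.Agent.V11174.RES.Greedy

set_option autoImplicit false

namespace V11174.RES

open Finset

open Classical in
/-- the family of rainbow paths held at the vertices -/
def Inv {n : ℕ} (H : SimpleGraph (Fin n → Bool)) (φ : Sym2 (Fin n → Bool) → ℕ) (L : ℕ)
    (S : Finset ℕ) (m : (Fin n → Bool) → ℕ) (g : (Fin n → Bool) → ℕ → (Fin n → Bool)) : Prop :=
  ∀ v, g v 0 = v ∧ (∀ i, i < m v → H.Adj (g v i) (g v (i + 1))) ∧
    (∀ i, i ≤ m v → ∀ j, j ≤ m v → g v i = g v j → i = j) ∧
    (∀ i, i < m v → φ s(g v i, g v (i + 1)) ∈ S) ∧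
    (∀ i, i < m v → ∀ j, j < m v →
      φ s(g v i, g v (i + 1)) = φ s(g v j, g v (j + 1)) → i = j) ∧
    ((range (m v + 1)).filter (fun i => (cube n).Adj v (g v i))).card ≤ L

open Classical in
/-- moving the path held at `v` to `w` is forbidden -/
def Forb {n : ℕ} (L : ℕ) (m : (Fin n → Bool) → ℕ) (g : (Fin n → Bool) → ℕ → (Fin n → Bool))
    (v w : Fin n → Bool) : Prop :=
  (∃ i, i ≤ m v ∧ g v i = w) ∨
    L < ((range (m v + 1)).filter (fun i => (cube n).Adj w (g v i))).card

theorem inv_len {n : ℕ} {H : SimpleGraph (Fin n → Bool)} {φ : Sym2 (Fin n → Bool) → ℕ} {L : ℕ}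
    {S : Finset ℕ} {m : (Fin n → Bool) → ℕ} {g : (Fin n → Bool) → ℕ → (Fin n → Bool)}
    (hI : Inv H φ L S m g) (k : ℕ)
    (hno : ¬ ∃ f : Fin (k + 1) → (Fin n → Bool),
      IsRainbowCopy H φ (SimpleGraph.pathGraph (k + 1)) f) (v : Fin n → Bool) : m v < k := by
  by_contra hcon
  push Not at hcon
  apply hno
  obtain ⟨-, h2, h3, -, h5, -⟩ := hI v
  refine ⟨fun i => g v i.val, ?_, ?_, ?_⟩
  · intro i j hij
    exact Fin.ext (h3 i.val (by omega) j.val (by omega) hij)
  · intro a b hab
    rw [SimpleGraph.pathGraph_adj] at hab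
    rcases hab with h | h
    · have := h2 a.val (by omega)
      rw [h] at this
      exact this
    · have := h2 b.val (by omega)
      rw [h] at this
      exact this.symm
  · intro a b c d hab hcd he
    rw [SimpleGraph.pathGraph_adj] at hab hcd
    have key : ∀ a b : Fin (k + 1), (a.val + 1 = b.val ∨ b.val + 1 = a.val) →
        ∃ i, i < m v ∧ φ s(g v a.val, g v b.val) = φ s(g v i, g v (i + 1)) ∧
          ∃ (x y : Fin (k + 1)), x.val = i ∧ y.val = i + 1 ∧ s(a, b) = s(x, y) := by
      intro a b h
      rcases h with h | h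
      · exact ⟨a.val, by omega, by rw [h], a, b, rfl, h.symm, rfl⟩
      · exact ⟨b.val, by omega, by rw [h, Sym2.eq_swap], b, a, rfl, h.symm, Sym2.eq_swap⟩
    obtain ⟨i, hi, e1, x, y, hx, hy, e2⟩ := key a b hab
    obtain ⟨j, hj, e3, x', y', hx', hy', e4⟩ := key c d hcd
    have he' : φ s(g v a.val, g v b.val) = φ s(g v c.val, g v d.val) := he
    rw [e1, e3] at he'
    have hij := h5 i hi j hj he'
    rw [e2, e4]
    have hxx : x = x' := Fin.ext (by omega)
    have hyy : y = y' := Fin.ext (by omega)
    rw [hxx, hyy]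

open Classical in
theorem forb_count {n : ℕ} {H : SimpleGraph (Fin n → Bool)} (hH : H ≤ cube n)
    {φ : Sym2 (Fin n → Bool) → ℕ} {L : ℕ}
    {S : Finset ℕ} {m : (Fin n → Bool) → ℕ} {g : (Fin n → Bool) → ℕ → (Fin n → Bool)}
    (hI : Inv H φ L S m g) (v : Fin n → Bool) (M : ℕ) (hM : 2 * m v ≤ M * L + L - 1)
    (hL : 0 < L) :
    (univ.filter (fun w => H.Adj v w ∧ Forb L m g v w)).card ≤ L + M := by
  obtain ⟨h1, h2, h3, -, -, h6⟩ := hI v
  let X1 : Finset (Fin n → Bool) := univ.filter (fun w => H.Adj v w ∧ ∃ i, i ≤ m v ∧ g v i = w)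
  let X2 : Finset (Fin n → Bool) := univ.filter (fun w => H.Adj v w ∧
    L < ((range (m v + 1)).filter (fun i => (cube n).Adj w (g v i))).card)
  have hsub : univ.filter (fun w => H.Adj v w ∧ Forb L m g v w) ⊆ X1 ∪ X2 := by
    intro w hw
    rw [Finset.mem_filter] at hw
    obtain ⟨-, ha, hb | hb⟩ := hw
    · exact Finset.mem_union_left _ (Finset.mem_filter.2 ⟨Finset.mem_univ _, ha, hb⟩)
    · exact Finset.mem_union_right _ (Finset.mem_filter.2 ⟨Finset.mem_univ _, ha, hb⟩)
  have hX1 : X1.card ≤ L := by
    refine le_trans ?_ h6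
    refine le_trans (Finset.card_le_card (t := ((range (m v + 1)).filter
      (fun i => (cube n).Adj v (g v i))).image (g v)) ?_) Finset.card_image_le
    intro w hw
    obtain ⟨-, ha, i, hi, hgi⟩ := Finset.mem_filter.1 hw
    refine Finset.mem_image.2 ⟨i, ?_, hgi⟩
    rw [Finset.mem_filter, Finset.mem_range]
    refine ⟨by omega, ?_⟩
    rw [hgi]
    exact hH ha
  have hX2 : X2.card ≤ M := by
    have e1 : X2.card * L ≤ ∑ w ∈ X2, ((Icc 1 (m v)).filter
        (fun i => (cube n).Adj w (g v i))).card := by
      rw [← smul_eq_mul, ← Finset.sum_const]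
      apply Finset.sum_le_sum
      intro w hw
      obtain ⟨-, ha, hb⟩ := Finset.mem_filter.1 hw
      have : (range (m v + 1)).filter (fun i => (cube n).Adj w (g v i)) ⊆
          insert 0 ((Icc 1 (m v)).filter (fun i => (cube n).Adj w (g v i))) := by
        intro i hi
        rw [Finset.mem_filter, Finset.mem_range] at hi
        rw [Finset.mem_insert, Finset.mem_filter, Finset.mem_Icc]
        rcases Nat.eq_zero_or_pos i with h | h
        · exact Or.inl h
        · exact Or.inr ⟨⟨h, by omega⟩, hi.2⟩
      have c1 := Finset.card_le_card this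
      have c2 := Finset.card_insert_le 0 ((Icc 1 (m v)).filter (fun i => (cube n).Adj w (g v i)))
      omega
    have e2 : ∑ w ∈ X2, ((Icc 1 (m v)).filter (fun i => (cube n).Adj w (g v i))).card =
        ∑ i ∈ Icc 1 (m v), (X2.filter (fun w => (cube n).Adj w (g v i))).card := by
      simp only [Finset.card_filter]
      rw [Finset.sum_comm]
    have e3 : ∑ i ∈ Icc 1 (m v), (X2.filter (fun w => (cube n).Adj w (g v i))).card ≤
        ∑ i ∈ Icc 1 (m v), 2 := by
      apply Finset.sum_le_sum
      intro i hi
      rw [Finset.mem_Icc] at hi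
      by_contra hcon
      push Not at hcon
      obtain ⟨z1, z2, z3, m1, m2, m3, n12, n13, n23⟩ := Finset.two_lt_card_iff.1 hcon
      rw [Finset.mem_filter] at m1 m2 m3
      have hne : v ≠ g v i := by
        intro h
        have := h3 0 (by omega) i hi.2 (h1.trans h)
        omega
      have k1 := (Finset.mem_filter.1 m1.1).2.1
      have k2 := (Finset.mem_filter.1 m2.1).2.1
      have k3 := (Finset.mem_filter.1 m3.1).2.1
      rcases common_two hne (hH k1) m1.2.symm (hH k2) m2.2.symm (hH k3) m3.2.symm with e | e | e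
      · exact n12 e
      · exact n13 e
      · exact n23 e
    rw [Finset.sum_const, Nat.card_Icc, smul_eq_mul] at e3
    by_contra hcon
    push Not at hcon
    have e4 : (M + 1) * L ≤ X2.card * L := Nat.mul_le_mul_right _ hcon
    have e5 : (M + 1) * L = M * L + L := by ring
    omega
  have := Finset.card_le_card hsub
  have := Finset.card_union_le X1 X2
  omega

open Classical in
/-- one colour is processed -/
theorem step {n : ℕ} {H : SimpleGraph (Fin n → Bool)}
    {φ : Sym2 (Fin n → Bool) → ℕ} (hφ : IsProper H φ) {L : ℕ}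
    {S : Finset ℕ} {m : (Fin n → Bool) → ℕ} {g : (Fin n → Bool) → ℕ → (Fin n → Bool)}
    (hI : Inv H φ L S m g) (c : ℕ) (hc : c ∉ S) :
    ∃ m' g', Inv H φ L (insert c S) m' g' ∧
      (∑ v, m v) + (univ.filter (fun q : (Fin n → Bool) × (Fin n → Bool) =>
        H.Adj q.1 q.2 ∧ φ s(q.1, q.2) = c)).card ≤
      (∑ v, m' v) + 2 * (univ.filter (fun q : (Fin n → Bool) × (Fin n → Bool) =>
        (H.Adj q.1 q.2 ∧ φ s(q.1, q.2) = c) ∧ Forb L m g q.1 q.2)).card := by
  let pi : (Fin n → Bool) → (Fin n → Bool) := fun v =>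
    if h : ∃ w, H.Adj v w ∧ φ s(v, w) = c then h.choose else v
  have hpi : ∀ v w, H.Adj v w → φ s(v, w) = c → pi v = w := by
    intro v w h1 h2
    have h : ∃ w, H.Adj v w ∧ φ s(v, w) = c := ⟨w, h1, h2⟩
    have h3 := h.choose_spec
    have h4 : pi v = h.choose := dif_pos h
    rw [h4]
    by_contra hne
    exact hφ v _ _ h3.1 h1 hne (h3.2.trans h2.symm)
  let ok : (Fin n → Bool) → Prop := fun v => (H.Adj v (pi v) ∧ φ s(v, pi v) = c) ∧
    ¬ Forb L m g v (pi v) ∧ ¬ Forb L m g (pi v) v
  have hok : ∀ v, ok v → ok (pi v) ∧ pi (pi v) = v := by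
    rintro v ⟨⟨h1, h2⟩, h3, h4⟩
    have h5 : pi (pi v) = v := hpi (pi v) v h1.symm (by rw [Sym2.eq_swap]; exact h2)
    refine ⟨⟨⟨?_, ?_⟩, ?_, ?_⟩, h5⟩
    · rw [h5]; exact h1.symm
    · rw [h5, Sym2.eq_swap]; exact h2
    · rw [h5]; exact h4
    · rw [h5]; exact h3
  let m' : (Fin n → Bool) → ℕ := fun v => if ok v then m (pi v) + 1 else m v
  let g' : (Fin n → Bool) → ℕ → (Fin n → Bool) := fun v =>
    if ok v then (fun i => Nat.casesOn i v (fun j => g (pi v) j)) else g v
  refine ⟨m', g', ?_, ?_⟩
  · intro v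
    by_cases hv : ok v
    · have hm : m' v = m (pi v) + 1 := if_pos hv
      have hg0 : g' v 0 = v := by
        show (if ok v then (fun i => Nat.casesOn i v (fun j => g (pi v) j)) else g v : ℕ → _) 0 = v
        rw [if_pos hv]
        rfl
      have hgs : ∀ j, g' v (j + 1) = g (pi v) j := by
        intro j
        show (if ok v then (fun i => Nat.casesOn i v (fun j => g (pi v) j)) else g v : ℕ → _)
          (j + 1) = _
        rw [if_pos hv]
      obtain ⟨⟨a1, a2⟩, a3, a4⟩ := hv
      obtain ⟨b1, b2, b3, b4, b5, b6⟩ := hI (pi v)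
      have a4' := not_or.1 a4
      refine ⟨hg0, ?_, ?_, ?_, ?_, ?_⟩
      · intro i hi
        rcases Nat.eq_zero_or_pos i with h | h
        · subst h
          rw [hg0, hgs, b1]
          exact a1
        · obtain ⟨j, rfl⟩ : ∃ j, i = j + 1 := ⟨i - 1, by omega⟩
          rw [hgs, hgs]
          exact b2 j (by omega)
      · intro i hi j hj hij
        rcases Nat.eq_zero_or_pos i with h | h
        · rcases Nat.eq_zero_or_pos j with h' | h'
          · omega
          · obtain ⟨j, rfl⟩ : ∃ j', j = j' + 1 := ⟨j - 1, by omega⟩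
            subst h
            rw [hg0, hgs] at hij
            exact absurd ⟨j, by omega, hij.symm⟩ a4'.1
        · obtain ⟨i, rfl⟩ : ∃ i', i = i' + 1 := ⟨i - 1, by omega⟩
          rcases Nat.eq_zero_or_pos j with h' | h'
          · subst h'
            rw [hg0, hgs] at hij
            exact absurd ⟨i, by omega, hij⟩ a4'.1
          · obtain ⟨j, rfl⟩ : ∃ j', j = j' + 1 := ⟨j - 1, by omega⟩
            rw [hgs, hgs] at hij
            have := b3 i (by omega) j (by omega) hij
            omega
      · intro i hi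
        rcases Nat.eq_zero_or_pos i with h | h
        · subst h
          rw [hg0, hgs, b1, a2]
          exact Finset.mem_insert_self _ _
        · obtain ⟨j, rfl⟩ : ∃ j, i = j + 1 := ⟨i - 1, by omega⟩
          rw [hgs, hgs]
          exact Finset.mem_insert_of_mem (b4 j (by omega))
      · intro i hi j hj hij
        rcases Nat.eq_zero_or_pos i with h | h
        · rcases Nat.eq_zero_or_pos j with h' | h'
          · omega
          · obtain ⟨j, rfl⟩ : ∃ j', j = j' + 1 := ⟨j - 1, by omega⟩
            subst h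
            rw [hg0, hgs, hgs, hgs, b1, a2] at hij
            exact absurd (hij ▸ b4 j (by omega)) hc
        · obtain ⟨i, rfl⟩ : ∃ i', i = i' + 1 := ⟨i - 1, by omega⟩
          rcases Nat.eq_zero_or_pos j with h' | h'
          · subst h'
            rw [hg0, hgs, hgs, hgs, b1, a2] at hij
            exact absurd (hij ▸ b4 i (by omega)) hc
          · obtain ⟨j, rfl⟩ : ∃ j', j = j' + 1 := ⟨j - 1, by omega⟩
            rw [hgs, hgs, hgs, hgs] at hij
            have := b5 i (by omega) j (by omega) hij
            omega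
      · have : ((range (m' v + 1)).filter (fun i => (cube n).Adj v (g' v i))) ⊆
            ((range (m (pi v) + 1)).filter (fun i => (cube n).Adj v (g (pi v) i))).image
              (fun i => i + 1) := by
          intro i hi
          rw [Finset.mem_filter, Finset.mem_range] at hi
          rcases Nat.eq_zero_or_pos i with h | h
          · subst h
            rw [hg0] at hi
            exact absurd rfl hi.2.ne
          · obtain ⟨j, rfl⟩ : ∃ j, i = j + 1 := ⟨i - 1, by omega⟩
            rw [hgs] at hi
            refine Finset.mem_image.2 ⟨j, ?_, rfl⟩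
            rw [Finset.mem_filter, Finset.mem_range]
            exact ⟨by omega, hi.2⟩
        have h1 := Finset.card_le_card this
        have h2 : (((range (m (pi v) + 1)).filter (fun i => (cube n).Adj v (g (pi v) i))).image
              (fun i => i + 1)).card ≤ _ := Finset.card_image_le
        have h3 := a4'.2
        omega
    · have hm : m' v = m v := if_neg hv
      have hg : g' v = g v := if_neg hv
      rw [hm, hg]
      obtain ⟨b1, b2, b3, b4, b5, b6⟩ := hI v
      exact ⟨b1, b2, b3, fun i hi => Finset.mem_insert_of_mem (b4 i hi), b5, b6⟩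
  · -- total length
    have hsum : ∑ v, m' v = ∑ v, m v + (univ.filter (fun v => ok v)).card := by
      have e1 : ∑ v, m' v = ∑ v ∈ univ.filter (fun v => ok v), (m (pi v) + 1) +
          ∑ v ∈ univ.filter (fun v => ¬ ok v), m v := by
        rw [← Finset.sum_filter_add_sum_filter_not univ (fun v => ok v) m']
        congr 1
        · apply Finset.sum_congr rfl
          intro v hv
          exact if_pos (Finset.mem_filter.1 hv).2
        · apply Finset.sum_congr rfl
          intro v hv
          exact if_neg (Finset.mem_filter.1 hv).2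
      have e2 : ∑ v ∈ univ.filter (fun v => ok v), m (pi v) =
          ∑ v ∈ univ.filter (fun v => ok v), m v := by
        apply Finset.sum_nbij' pi pi
        · intro v hv
          rw [Finset.mem_filter] at hv ⊢
          exact ⟨Finset.mem_univ _, (hok v hv.2).1⟩
        · intro v hv
          rw [Finset.mem_filter] at hv ⊢
          exact ⟨Finset.mem_univ _, (hok v hv.2).1⟩
        · intro v hv
          exact (hok v (Finset.mem_filter.1 hv).2).2
        · intro v hv
          exact (hok v (Finset.mem_filter.1 hv).2).2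
        · intro v _
          rfl
      rw [e1, Finset.sum_add_distrib, e2, Finset.sum_const, smul_eq_mul, mul_one,
        ← Finset.sum_filter_add_sum_filter_not univ (fun v => ok v) m]
      ring
    rw [hsum]
    let A : Finset ((Fin n → Bool) × (Fin n → Bool)) := univ.filter (fun q =>
        H.Adj q.1 q.2 ∧ φ s(q.1, q.2) = c)
    let B : Finset ((Fin n → Bool) × (Fin n → Bool)) := univ.filter (fun q =>
        (H.Adj q.1 q.2 ∧ φ s(q.1, q.2) = c) ∧ Forb L m g q.1 q.2)
    have hcov : A ⊆ ((univ.filter (fun v => ok v)).image (fun v => (v, pi v))) ∪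
        (B ∪ B.image Prod.swap) := by
      rintro ⟨v, w⟩ hq
      obtain ⟨-, h1, h2⟩ := Finset.mem_filter.1 hq
      simp only at h1 h2
      have h3 := hpi v w h1 h2
      rw [Finset.mem_union, Finset.mem_union]
      by_cases h4 : Forb L m g v w
      · right; left
        exact Finset.mem_filter.2 ⟨Finset.mem_univ _, ⟨h1, h2⟩, h4⟩
      · by_cases h5 : Forb L m g w v
        · right; right
          refine Finset.mem_image.2 ⟨(w, v), ?_, rfl⟩
          exact Finset.mem_filter.2 ⟨Finset.mem_univ _,
            ⟨h1.symm, by rw [Sym2.eq_swap]; exact h2⟩, h5⟩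
        · left
          refine Finset.mem_image.2 ⟨v, ?_, by rw [h3]⟩
          rw [Finset.mem_filter]
          refine ⟨Finset.mem_univ _, ?_⟩
          show (H.Adj v (pi v) ∧ φ s(v, pi v) = c) ∧
            ¬ Forb L m g v (pi v) ∧ ¬ Forb L m g (pi v) v
          rw [h3]
          exact ⟨⟨h1, h2⟩, h4, h5⟩
    have c1 := Finset.card_le_card hcov
    have c2 := Finset.card_union_le ((univ.filter (fun v => ok v)).image (fun v => (v, pi v)))
      (B ∪ B.image Prod.swap)
    have c3 := Finset.card_union_le B (B.image Prod.swap)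
    have c4 : (B.image Prod.swap).card ≤ B.card := Finset.card_image_le
    have c5 : ((univ.filter (fun v => ok v)).image (fun v => (v, pi v))).card ≤
      (univ.filter (fun v => ok v)).card := Finset.card_image_le
    show ∑ v, m v + A.card ≤ ∑ v, m v + (univ.filter (fun v => ok v)).card + 2 * B.card
    omega

end V11174.RES
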